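import Pool.Agent.Hhelper78.ZPL.SpreadC
import Pool.Agent.Hhelper77.ZPL.ValFinite

/-!
# Spreading out: nondegeneracy over the algebraic numbers implies nondegeneracy
-/

namespace Pool.Agent.Hhelper14.ZPL

open UpperHalfPlane MvPolynomial Pool.Agent.Hhelper14.ZP

theorem fg_span {ι : Type} [Finite ι] (I : Ideal (MvPolynomial ι ℂ)) :
    ∃ (m : ℕ) (f : Fin m → MvPolynomial ι ℂ), Ideal.span (Set.range f) = I := by
  classical
  obtain ⟨T, hT⟩ := (inferInstance : IsNoetherianRing (MvPolynomial ι ℂ)).noetherian I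
  let e := T.equivFin
  refine ⟨T.card, fun k => e.symm k, ?_⟩
  have hrange : Set.range (fun k => ((e.symm k : T) : MvPolynomial ι ℂ)) = T := by
    ext x
    constructor
    · rintro ⟨k, rfl⟩
      exact (e.symm k).2
    · intro hx
      exact ⟨e ⟨x, hx⟩, by simp⟩
  rw [hrange]
  exact hT

theorem ndk_to_nd' (hval : ExValFinite) (h : NDk) : ND := by
  classical
  intro ι _ V hV hgen
  obtain ⟨x0, hx0⟩ := irred_nonempty hV
  obtain ⟨m, f, hf⟩ := fg_span (vanishingIdeal ℂ V)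
  let σ : Type := Σ l : Fin m, ((f l).support : Finset (ι →₀ ℕ))
  let y0 : σ → ℂ := fun j => coeff j.2.1 (f j.1)
  obtain ⟨p, hp⟩ := exists_shift hval x0 y0
  let y : σ → ℂ := fun j => y0 j + (p j : ℂ)⁻¹
  -- the equations
  let F : Fin m → MvPolynomial (ι ⊕ σ) Qb := fun l => ∑ α : ((f l).support : Finset (ι →₀ ℕ)),
    (X (Sum.inr ⟨l, α⟩) - C ((p ⟨l, α⟩ : Qb)⁻¹)) * rename Sum.inl (monomial α.1 1)
  have hF : ∀ (l : Fin m) (x : ι → ℂ), (aeval (Sum.elim x y) (F l) : ℂ) = aeval x (f l) := by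
    intro l x
    have h1 : (aeval x (f l) : ℂ) =
        ∑ α ∈ (f l).support, coeff α (f l) * aeval x (monomial α (1 : ℂ)) := by
      conv_lhs => rw [(f l).as_sum]
      rw [map_sum]
      refine Finset.sum_congr rfl fun α _ => ?_
      rw [aeval_monomial, aeval_monomial]
      simp
    rw [h1, ← Finset.sum_coe_sort]
    simp only [F, map_sum]
    refine Finset.sum_congr rfl fun α _ => ?_
    rw [map_mul, map_sub, aeval_X, aeval_C, aeval_rename]
    have h2 : (Sum.elim x y : ι ⊕ σ → ℂ) (Sum.inr ⟨l, α⟩) = coeff α.1 (f l) + (p ⟨l, α⟩ : ℂ)⁻¹ := rfl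
    rw [h2]
    have h3 : algebraMap Qb ℂ ((p ⟨l, α⟩ : Qb)⁻¹) = (p ⟨l, α⟩ : ℂ)⁻¹ := by
      rw [map_inv₀, map_natCast]
    rw [h3, add_sub_cancel_right]
    congr 1
    rw [aeval_monomial, aeval_monomial]
    simp
  let U := kcl (prodPt V y)
  have hUirr : IsIrredClosed U := kcl_irred (prime_prodPt hV y)
  have hUk : KClosed U := kcl_kclosed _
  have hfib : ∀ z ∈ U, z ∘ Sum.inr = y → z ∘ Sum.inl ∈ V := by
    intro z hz hzy
    rw [← hV.2, ← hf, mem_zeroLocus_iff]
    intro q hq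
    have h1 : Ideal.span (Set.range f) ≤
        RingHom.ker (aeval (z ∘ Sum.inl) : MvPolynomial ι ℂ →ₐ[ℂ] ℂ) := by
      rw [Ideal.span_le]
      rintro _ ⟨l, rfl⟩
      change (aeval (z ∘ Sum.inl) (f l) : ℂ) = 0
      rw [← hF]
      have h2 : (Sum.elim (z ∘ Sum.inl) y : ι ⊕ σ → ℂ) = z := by
        rw [← hzy, Sum.elim_comp_inl_inr]
      rw [h2]
      have h3 : F l ∈ (vanishingIdeal Qb (prodPt V y) : Ideal (MvPolynomial (ι ⊕ σ) Qb)) := by
        rw [mem_vanishingIdeal_iff]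
        rintro _ ⟨x, hx, rfl⟩
        change (aeval (Sum.elim x y) (F l) : ℂ) = 0
        rw [hF]
        have h4 : f l ∈ (vanishingIdeal ℂ V : Ideal (MvPolynomial ι ℂ)) := by
          rw [← hf]
          exact Ideal.subset_span ⟨l, rfl⟩
        exact (mem_vanishingIdeal_iff.mp h4) x hx
      exact (mem_zeroLocus_iff.mp hz) _ h3
    exact h1 hq
  have hUgen : ∀ Z, IsSpecial Z → U ⊆ Z → Z = Set.univ := by
    intro Z hZ hUZ
    exact generic_prod hgen hx0 hp hZ ((subset_kcl _).trans hUZ)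
  obtain ⟨FF, hFF, hFF'⟩ := h (ι ⊕ σ) U hUk hUirr hUgen
  let φ : Set (ι ⊕ σ → ℂ) → Set (ι → ℂ) := fun E => {x | Sum.elim x y ∈ E}
  refine ⟨FF.image φ, ?_, ?_⟩
  · intro E hE
    obtain ⟨E', hE', rfl⟩ := Finset.mem_image.mp hE
    obtain ⟨hk, hnU⟩ := hFF E' hE'
    refine ⟨?_, ?_⟩
    · refine Set.Subset.antisymm ?_ (subset_closure' _)
      intro x hx
      rw [mem_zeroLocus_iff] at hx
      change Sum.elim x y ∈ E'
      rw [← hk.closed, mem_zeroLocus_iff]
      intro q hq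
      rw [← aeval_subY]
      apply hx
      rw [mem_vanishingIdeal_iff]
      intro x' hx'
      rw [aeval_subY]
      exact (mem_vanishingIdeal_iff.mp hq) _ hx'
    · intro hVE
      apply hnU
      refine kcl_subset hk ?_
      rintro _ ⟨x, hx, rfl⟩
      exact hVE hx
  · intro Z W hZ hW hWV hWZ hdim
    obtain ⟨hZ', hdZ⟩ := special_cyl (σ := σ) hZ
    have hWirr : IsIrredClosed (kcl (prodPt W y)) := kcl_irred (prime_prodPt hW y)
    obtain ⟨E, hE, hWE⟩ := hFF' _ (kcl (prodPt W y)) hZ' hWirr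
      (kcl_subset hUk ((prodPt_mono hWV y).trans (subset_kcl _)))
      (kcl_subset (special_kclosed hZ') (by
        rintro _ ⟨x, hx, rfl⟩
        exact hWZ hx)) (by
        have h1 := dim_kcl_le hV hfib
        have h2 := le_dim_kcl hW y
        rw [hdZ]
        obtain ⟨dV, hdV, -⟩ := exists_dim hV
        obtain ⟨dW, hdW, -⟩ := exists_dim hW
        obtain ⟨dU, hdU, -⟩ := exists_dim hUirr
        obtain ⟨dk, hdk, -⟩ := exists_dim hWirr
        obtain ⟨e, he, -⟩ := exists_dim (kcl_irred (irredClosed_singleton y).1)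
        obtain ⟨dZ, hdZn⟩ : ∃ n : ℕ, dim Z = (n : ℕ) := by
          obtain ⟨r, blk, g, s, hb, hg, -, rfl⟩ := isSpecial_iff.mp hZ
          exact ⟨r, by rw [dim_spSet hb hg]; simp⟩
        change dim (kcl (prodPt V y)) = _ at hdU
        rw [hdV, hdU, he] at h1
        rw [hdW, hdk, he] at h2
        rw [hdZn, hdV, hdW] at hdim
        change _ + dim (kcl (prodPt V y)) < _
        rw [hdZn, hdU, hdk]
        have h1' : dU ≤ dV + e := by exact_mod_cast h1
        have h2' : dW + e ≤ dk := by exact_mod_cast h2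
        have h3' : dZ + dV < dW + Fintype.card ι := by exact_mod_cast hdim
        have h4' : dZ + Fintype.card σ + dU < dk + Fintype.card (ι ⊕ σ) := by
          rw [Fintype.card_sum]; omega
        exact_mod_cast h4')
    refine ⟨φ E, Finset.mem_image_of_mem _ hE, ?_⟩
    intro x hx
    exact hWE (subset_kcl _ ⟨x, hx, rfl⟩)

/-- **Nondegeneracy over the algebraic numbers implies nondegeneracy over `ℂ`.** -/
theorem ndk_to_nd (h : NDk) : ND := ndk_to_nd' exists_val_finite h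

end Pool.Agent.Hhelper14.ZPL
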