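import Pool.Agent.Hhelper14.ZPL.KClosed

/-!
# Spreading out: products with a point
-/

namespace Pool.Agent.Hhelper14.ZPL

open MvPolynomial Pool.Agent.Hhelper14.ZP

variable {ι σ : Type}

/-- `X × {y}` -/
def prodPt (X : Set (ι → ℂ)) (y : σ → ℂ) : Set (ι ⊕ σ → ℂ) := (fun x => Sum.elim x y) '' X

theorem mem_prodPt {X : Set (ι → ℂ)} {y : σ → ℂ} {z : ι ⊕ σ → ℂ} :
    z ∈ prodPt X y ↔ z ∘ Sum.inl ∈ X ∧ z ∘ Sum.inr = y := by
  constructor
  · rintro ⟨x, hx, rfl⟩
    exact ⟨hx, rfl⟩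
  · rintro ⟨h1, h2⟩
    refine ⟨z ∘ Sum.inl, h1, ?_⟩
    subst h2
    funext p
    rcases p with i | j <;> rfl

theorem prodPt_mono {X X' : Set (ι → ℂ)} (h : X ⊆ X') (y : σ → ℂ) : prodPt X y ⊆ prodPt X' y :=
  Set.image_mono h

/-- the substitution `Y := y` -/
noncomputable def subY (y : σ → ℂ) : MvPolynomial (ι ⊕ σ) ℂ →ₐ[ℂ] MvPolynomial ι ℂ :=
  aeval (Sum.elim X (fun j => C (y j)))

theorem aeval_subY (y : σ → ℂ) (x : ι → ℂ) (p : MvPolynomial (ι ⊕ σ) ℂ) :
    (aeval x (subY y p) : ℂ) = aeval (Sum.elim x y) p := by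
  have h : (aeval x : MvPolynomial ι ℂ →ₐ[ℂ] ℂ).comp (subY y) = aeval (Sum.elim x y) := by
    apply MvPolynomial.algHom_ext
    rintro (i | j)
    · simp [subY]
    · simp [subY]
  exact DFunLike.congr_fun h p

theorem vanishing_prodPt (X : Set (ι → ℂ)) (y : σ → ℂ) :
    (vanishingIdeal ℂ (prodPt X y) : Ideal (MvPolynomial (ι ⊕ σ) ℂ)) =
      (vanishingIdeal ℂ X).comap (subY y) := by
  ext p
  rw [Ideal.mem_comap, mem_vanishingIdeal_iff, mem_vanishingIdeal_iff]
  constructor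
  · intro h x hx
    rw [aeval_subY]
    exact h _ ⟨x, hx, rfl⟩
  · rintro h _ ⟨x, hx, rfl⟩
    rw [← aeval_subY]
    exact h x hx

theorem prime_prodPt {X : Set (ι → ℂ)} (hX : IsIrredClosed X) (y : σ → ℂ) :
    (vanishingIdeal ℂ (prodPt X y) : Ideal (MvPolynomial (ι ⊕ σ) ℂ)).IsPrime := by
  rw [vanishing_prodPt]
  have := hX.1
  exact Ideal.IsPrime.comap _

theorem irredClosed_prodPt [Finite σ] {X : Set (ι → ℂ)} (hX : IsIrredClosed X) (y : σ → ℂ) :
    IsIrredClosed (prodPt X y) := by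
  refine ⟨prime_prodPt hX y, ?_⟩
  have h : prodPt X y = {z : ι ⊕ σ → ℂ | z ∘ Sum.inl ∈ X} ∩ {z | z ∘ Sum.inr ∈ ({y} : Set (σ → ℂ))} := by
    ext z
    rw [mem_prodPt]
    rfl
  have h2 : IsZClosed (prodPt X y) := by
    rw [h]
    exact closed_inter (closed_preimage hX.2) (closed_preimage (irredClosed_singleton y).2)
  exact h2

theorem proj_prodPt (X : Set (ι → ℂ)) (y : σ → ℂ) :
    proj (Sum.inl : ι → ι ⊕ σ) (prodPt X y) = X := by
  ext x
  constructor
  · rintro ⟨z, ⟨x', hx', rfl⟩, rfl⟩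
    exact hx'
  · intro hx
    exact ⟨Sum.elim x y, ⟨x, hx, rfl⟩, rfl⟩

theorem dim_prodPt (X : Set (ι → ℂ)) (y : σ → ℂ) : dim (prodPt X y) = dim X := by
  have h : IntOver (Sum.inl : ι → ι ⊕ σ) (prodPt X y) := by
    rintro (i | j)
    · exact intElem_coord Sum.inl _ i
    · refine intElem_congr (C (y j)) ?_
      rintro _ ⟨x, hx, rfl⟩
      simp
  rw [← h.dim_eq, proj_prodPt]

/-- a point of an irreducible variety of dimension `e` is cut out by `e` equations -/
theorem exists_cut_point [Fintype σ] {S : Set (σ → ℂ)} (hS : IsIrredClosed S) {y : σ → ℂ}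
    (hy : y ∈ S) : ∃ (e : ℕ) (h : Fin e → MvPolynomial σ ℂ), dim S = (e : ℕ) ∧
      IsComponent {y} (S ∩ zeroLocus ℂ (Ideal.span (Set.range h))) := by
  classical
  obtain ⟨e, he, -⟩ := exists_dim hS
  set P : Ideal (MvPolynomial σ ℂ) := vanishingIdeal ℂ S with hP
  set Q : Ideal (MvPolynomial σ ℂ) := vanishingIdeal ℂ {y} with hQ
  have hPp : P.IsPrime := hS.1
  have hQmax : Q.IsMaximal := isMaximal_iff_eq_vanishingIdeal_singleton.mpr ⟨y, rfl⟩
  have hPQ : P ≤ Q := vanishingIdeal_anti_mono (Set.singleton_subset_iff.mpr hy)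
  let R := MvPolynomial σ ℂ ⧸ P
  let Q' : Ideal R := Q.map (Ideal.Quotient.mk P)
  have hcomapQ : Q'.comap (Ideal.Quotient.mk P) = Q := by
    rw [Ideal.comap_map_of_surjective _ Ideal.Quotient.mk_surjective, ← RingHom.ker_eq_comap_bot,
      Ideal.mk_ker, sup_eq_left.mpr hPQ]
  have hQ'max : Q'.IsMaximal :=
    Ideal.IsMaximal.map_of_surjective_of_ker_le Ideal.Quotient.mk_surjective (by
      rw [Ideal.mk_ker]; exact hPQ)
  obtain ⟨s, hs, hcard⟩ := Ideal.exists_finset_card_eq_height_of_isNoetherianRing Q'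
  have hcard' : s.card = e := by
    have h1 := height_maximal (R := R) Q'
    have h2 : ringKrullDim R = (e : ℕ) := he
    rw [h2, ← hcard] at h1
    exact_mod_cast h1.symm
  choose lift hlift using fun r : R => Ideal.Quotient.mk_surjective r
  let f : s ≃ Fin s.card := s.equivFin
  have key : ∀ (e' : ℕ) (_ : s.card = e'), ∃ h : Fin e' → MvPolynomial σ ℂ,
      Set.range (fun k => Ideal.Quotient.mk P (h k)) = (s : Set R) := by
    rintro _ rfl
    refine ⟨fun k => lift (f.symm k), ?_⟩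
    ext r
    constructor
    · rintro ⟨k, rfl⟩
      simp only [hlift]
      exact (f.symm k).2
    · intro hr
      exact ⟨f ⟨r, hr⟩, by simp [hlift]⟩
  obtain ⟨h, hh⟩ := key e hcard'
  have hspan : ∀ T : Ideal (MvPolynomial σ ℂ), P ≤ T → ((∀ k, h k ∈ T) ↔
      Ideal.span (s : Set R) ≤ T.map (Ideal.Quotient.mk P)) := by
    intro T hPT
    have hcomapT : (T.map (Ideal.Quotient.mk P)).comap (Ideal.Quotient.mk P) = T := by
      rw [Ideal.comap_map_of_surjective _ Ideal.Quotient.mk_surjective, ← RingHom.ker_eq_comap_bot,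
        Ideal.mk_ker, sup_eq_left.mpr hPT]
    rw [Ideal.span_le, ← hh]
    constructor
    · rintro hT _ ⟨k, rfl⟩
      exact Ideal.mem_map_of_mem _ (hT k)
    · intro hT k
      rw [← hcomapT]
      exact hT ⟨k, rfl⟩
  refine ⟨e, h, he, irredClosed_singleton y, ?_, ?_⟩
  · rw [Set.singleton_subset_iff]
    refine ⟨hy, ?_⟩
    rw [mem_zeroLocus_iff]
    intro p hp
    have h1 : Ideal.span (Set.range h) ≤ Q := by
      rw [Ideal.span_le]
      rintro _ ⟨k, rfl⟩
      exact (hspan Q hPQ).mpr hs.1.2 k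
    exact (mem_vanishingIdeal_singleton_iff _ _).mp (h1 hp)
  · intro D hD hDS hyD
    refine Set.Subset.antisymm ?_ hyD
    set T : Ideal (MvPolynomial σ ℂ) := vanishingIdeal ℂ D with hT
    have hTp : T.IsPrime := hD.1
    have hPT : P ≤ T := vanishingIdeal_anti_mono fun x hx => (hDS hx).1
    have hTQ : T ≤ Q := vanishingIdeal_anti_mono hyD
    have hkT : ∀ k, h k ∈ T := by
      intro k
      rw [hT, mem_vanishingIdeal_iff]
      intro x hx
      have h1 := (hDS hx).2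
      rw [mem_zeroLocus_iff] at h1
      exact h1 _ (Ideal.subset_span ⟨k, rfl⟩)
    have hT'p : (T.map (Ideal.Quotient.mk P)).IsPrime := Ideal.isPrime_map_quotientMk_of_isPrime hPT
    have h2 : Q' ≤ T.map (Ideal.Quotient.mk P) :=
      hs.2 ⟨hT'p, (hspan T hPT).mp hkT⟩ (Ideal.map_mono hTQ)
    have hcomapT : (T.map (Ideal.Quotient.mk P)).comap (Ideal.Quotient.mk P) = T := by
      rw [Ideal.comap_map_of_surjective _ Ideal.Quotient.mk_surjective, ← RingHom.ker_eq_comap_bot,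
        Ideal.mk_ker, sup_eq_left.mpr hPT]
    have h3 : Q ≤ T := by
      rw [← hcomapQ, ← hcomapT]
      exact Ideal.comap_mono h2
    have h4 := zeroLocus_anti_mono (K := ℂ) h3
    rw [hT, hD.2, hQ, (irredClosed_singleton y).2] at h4
    exact h4

/-- **The dimension of the `Qb`-closure of `V × {y}`** (upper bound): if the fibre of the closure
over `y` is `V` then the dimension is at most `dim V + dim (kcl {y})` -/
theorem dim_kcl_le [Fintype ι] [Fintype σ] {V : Set (ι → ℂ)} (hV : IsIrredClosed V) {y : σ → ℂ}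
    (hfib : ∀ z ∈ kcl (prodPt V y), z ∘ Sum.inr = y → z ∘ Sum.inl ∈ V) :
    dim (kcl (prodPt V y)) ≤ dim V + dim (kcl {y}) := by
  have hSirr : IsIrredClosed (kcl ({y} : Set (σ → ℂ))) := kcl_irred (irredClosed_singleton y).1
  have hyS : y ∈ kcl ({y} : Set (σ → ℂ)) := subset_kcl _ rfl
  obtain ⟨e, h, he, hcomp⟩ := exists_cut_point hSirr hyS
  have hA : IsIrredClosed (kcl (prodPt V y)) := kcl_irred (prime_prodPt hV y)
  have hproj : ∀ z ∈ kcl (prodPt V y), z ∘ Sum.inr ∈ kcl ({y} : Set (σ → ℂ)) := by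
    have h1 : KClosed {z : ι ⊕ σ → ℂ | z ∘ Sum.inr ∈ kcl ({y} : Set (σ → ℂ))} :=
      (kcl_kclosed _).preimage
    intro z hz
    refine kcl_subset h1 ?_ hz
    intro w hw
    rw [mem_prodPt] at hw
    change w ∘ Sum.inr ∈ kcl ({y} : Set (σ → ℂ))
    rw [hw.2]
    exact hyS
  let H : Fin e → MvPolynomial (ι ⊕ σ) ℂ := fun k => rename Sum.inr (h k)
  have hH : ∀ z : ι ⊕ σ → ℂ, z ∈ zeroLocus ℂ (Ideal.span (Set.range H)) ↔
      z ∘ Sum.inr ∈ zeroLocus ℂ (Ideal.span (Set.range h)) := by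
    intro z
    have hgen : ∀ {τ : Type} (f : Fin e → MvPolynomial τ ℂ) (w : τ → ℂ),
        w ∈ (zeroLocus ℂ (Ideal.span (Set.range f)) : Set (τ → ℂ)) ↔
          ∀ k, (aeval w (f k) : ℂ) = 0 := by
      intro τ f w
      rw [mem_zeroLocus_iff]
      constructor
      · intro h k
        exact h _ (Ideal.subset_span ⟨k, rfl⟩)
      · intro h p hp
        have h1 : Ideal.span (Set.range f) ≤
            RingHom.ker (aeval w : MvPolynomial τ ℂ →ₐ[ℂ] ℂ) := by
          rw [Ideal.span_le]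
          rintro _ ⟨k, rfl⟩
          exact h k
        exact h1 hp
    rw [hgen, hgen]
    simp only [H, aeval_rename]
  have hc : IsComponent (prodPt V y) (kcl (prodPt V y) ∩ zeroLocus ℂ (Ideal.span (Set.range H))) := by
    refine ⟨irredClosed_prodPt hV y, ?_, ?_⟩
    · intro z hz
      refine ⟨subset_kcl _ hz, ?_⟩
      rw [hH, (mem_prodPt.mp hz).2]
      exact (hcomp.2.1 rfl).2
    · intro D hD hDA hVD
      refine Set.Subset.antisymm ?_ hVD
      -- the projection of `D`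
      let E := zeroLocus ℂ (vanishingIdeal ℂ (proj (Sum.inr : σ → ι ⊕ σ) D) :
        Ideal (MvPolynomial σ ℂ))
      have hE : IsIrredClosed E := irredClosed_closure (irred_proj hD.1)
      have hES : E ⊆ kcl ({y} : Set (σ → ℂ)) ∩ zeroLocus ℂ (Ideal.span (Set.range h)) := by
        refine closure_subset' ?_ (closed_inter hSirr.2 (closed_zeroLocus _))
        rintro _ ⟨z, hz, rfl⟩
        exact ⟨hproj z (hDA hz).1, (hH z).mp (hDA hz).2⟩
      have hyE : ({y} : Set (σ → ℂ)) ⊆ E := by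
        rw [Set.singleton_subset_iff]
        obtain ⟨x, hx⟩ := irred_nonempty hV
        exact subset_closure' _ ⟨Sum.elim x y, hVD ⟨x, hx, rfl⟩, rfl⟩
      have hEy := hcomp.2.2 E hE hES hyE
      intro z hz
      have h1 : z ∘ Sum.inr ∈ E := subset_closure' _ ⟨z, hz, rfl⟩
      rw [hEy] at h1
      exact mem_prodPt.mpr ⟨hfib z (hDA hz).1 h1, h1⟩
  have h1 := krull_cut hA H hc
  rw [dim_prodPt] at h1
  rw [he]
  exact h1

end Pool.Agent.Hhelper14.ZPL
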