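import Pool.Agent.Hhelper78.ZPL.SpreadA

/-!
# Spreading out: lower bound for the dimension
-/

namespace Pool.Agent.Hhelper14.ZPL

open MvPolynomial Pool.Agent.Hhelper14.ZP

variable {ι σ κ : Type}

/-- the coordinates `ρ` are algebraically independent on `W` -/
def Indep (W : Set (ι → ℂ)) (ρ : κ → ι) : Prop :=
  ∀ p : MvPolynomial κ ℂ, (∀ x ∈ W, (aeval (x ∘ ρ) p : ℂ) = 0) → p = 0

/-- transcendence bases of coordinates -/
theorem exists_basis' [Fintype ι] (P : Ideal (MvPolynomial ι ℂ)) [hP : P.IsPrime] :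
    ∃ I : Finset ι, IsTranscendenceBasis ℂ
      (fun i : I => (Ideal.Quotient.mk P (X (i : ι)) : MvPolynomial ι ℂ ⧸ P)) := by
  classical
  let xb : ι → MvPolynomial ι ℂ ⧸ P := fun i => Ideal.Quotient.mk P (X i)
  have hadj : Algebra.adjoin ℂ (Set.range xb) = ⊤ := by
    have h1 : (Algebra.adjoin ℂ (Set.range (X : ι → MvPolynomial ι ℂ))).map
        (Ideal.Quotient.mkₐ ℂ P) = Algebra.adjoin ℂ (Set.range xb) := by
      rw [AlgHom.map_adjoin, ← Set.range_comp]
      rfl
    rw [← h1, MvPolynomial.adjoin_range_X, Algebra.map_top, AlgHom.range_eq_top]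
    exact Ideal.Quotient.mkₐ_surjective ℂ P
  have halg : Algebra.IsAlgebraic (Algebra.adjoin ℂ (Set.range xb))
      (MvPolynomial ι ℂ ⧸ P) := by
    rw [hadj]
    refine ⟨fun x => ?_⟩
    exact isAlgebraic_algebraMap (⟨x, Algebra.mem_top⟩ : (⊤ : Subalgebra ℂ (MvPolynomial ι ℂ ⧸ P)))
  obtain ⟨t, hts, ht⟩ := exists_isTranscendenceBasis_subset (R := ℂ) (Set.range xb)
  have hch : ∀ y : t, ∃ i, xb i = y.1 := fun y => hts y.2
  choose s hs using hch
  have htfin : t.Finite := (Set.finite_range _).subset hts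
  have : Fintype t := htfin.fintype
  have hsinj : Function.Injective s := fun y z hyz => Subtype.ext (by rw [← hs y, ← hs z, hyz])
  refine ⟨Finset.univ.image s, ?_⟩
  let e : t ≃ (Finset.univ.image s : Finset ι) :=
    Equiv.ofBijective (fun y => ⟨s y, Finset.mem_image_of_mem _ (Finset.mem_univ y)⟩)
      ⟨fun y z h => hsinj (congrArg Subtype.val h), fun ⟨i, hi⟩ => by
        obtain ⟨y, -, hy⟩ := Finset.mem_image.mp hi
        exact ⟨y, Subtype.ext hy⟩⟩
  have h2 : (fun i : (Finset.univ.image s : Finset ι) => xb i) ∘ e = ((↑) : t → _) := by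
    funext y
    exact hs y
  change IsTranscendenceBasis ℂ (fun i : (Finset.univ.image s : Finset ι) => xb i)
  rw [← isTranscendenceBasis_equiv e, h2]
  exact ht

theorem aeval_mk (P : Ideal (MvPolynomial ι ℂ)) (ρ : κ → ι) (p : MvPolynomial κ ℂ) :
    (aeval (fun k => (Ideal.Quotient.mk P (X (ρ k)) : MvPolynomial ι ℂ ⧸ P)) p) =
      Ideal.Quotient.mk P (rename ρ p) := by
  have h : (aeval (fun k => (Ideal.Quotient.mk P (X (ρ k)) : MvPolynomial ι ℂ ⧸ P))) =
      (Ideal.Quotient.mkₐ ℂ P).comp (rename ρ) := by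
    apply MvPolynomial.algHom_ext
    intro k
    simp
  rw [h]
  rfl

/-- the dimension is the size of a set of independent coordinates -/
theorem exists_indep [Fintype ι] {W : Set (ι → ℂ)} (hW : IsIrredClosed W) :
    ∃ I : Finset ι, dim W = (I.card : ℕ) ∧ Indep W (fun i : I => (i : ι)) := by
  classical
  have hP := hW.1
  obtain ⟨I, hI⟩ := exists_basis' (vanishingIdeal ℂ W : Ideal (MvPolynomial ι ℂ))
  refine ⟨I, ?_, ?_⟩
  · rw [dim, krull_eq_card hI]
    simp
  · intro p hp
    have h1 : Function.Injective (aeval (fun i : I => (Ideal.Quotient.mk (vanishingIdeal ℂ W)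
      (X (i : ι)) : MvPolynomial ι ℂ ⧸ (vanishingIdeal ℂ W : Ideal (MvPolynomial ι ℂ)))) :
        MvPolynomial I ℂ →ₐ[ℂ] _) := hI.1
    apply h1
    rw [map_zero, aeval_mk, Ideal.Quotient.eq_zero_iff_mem, mem_vanishingIdeal_iff]
    intro x hx
    rw [aeval_rename]
    exact hp x hx

theorem le_dim_of_indep [Fintype ι] [Fintype κ] {W : Set (ι → ℂ)} (hW : IsIrredClosed W)
    {ρ : κ → ι} (h : Indep W ρ) : ((Fintype.card κ : ℕ) : WithBot ℕ∞) ≤ dim W := by
  classical
  have hP := hW.1
  obtain ⟨I, hI⟩ := exists_basis' (vanishingIdeal ℂ W : Ideal (MvPolynomial ι ℂ))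
  have hind : AlgebraicIndependent ℂ (fun k : κ => (Ideal.Quotient.mk (vanishingIdeal ℂ W)
      (X (ρ k)) : MvPolynomial ι ℂ ⧸ (vanishingIdeal ℂ W : Ideal (MvPolynomial ι ℂ)))) := by
    rw [AlgebraicIndependent, injective_iff_map_eq_zero]
    intro p hp
    rw [aeval_mk, Ideal.Quotient.eq_zero_iff_mem, mem_vanishingIdeal_iff] at hp
    refine h p fun x hx => ?_
    have := hp x hx
    rwa [aeval_rename] at this
  have h1 := hind.cardinalMk_le_trdeg
  rw [← hI.cardinalMk_eq_trdeg] at h1
  have h2 : Fintype.card κ ≤ I.card := by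
    rw [Cardinal.mk_fintype, Cardinal.mk_fintype] at h1
    simpa using (Nat.cast_le (α := Cardinal)).mp h1
  rw [dim, krull_eq_card hI]
  simp only [Nat.card_eq_fintype_card, Fintype.card_coe]
  exact_mod_cast h2

/-- **The dimension of the `Qb`-closure of `W × {y}`** (lower bound) -/
theorem le_dim_kcl [Fintype ι] [Fintype σ] {W : Set (ι → ℂ)} (hW : IsIrredClosed W) (y : σ → ℂ) :
    dim W + dim (kcl {y}) ≤ dim (kcl (prodPt W y)) := by
  classical
  have hSirr : IsIrredClosed (kcl ({y} : Set (σ → ℂ))) := kcl_irred (irredClosed_singleton y).1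
  obtain ⟨I, hI, hIW⟩ := exists_indep hW
  obtain ⟨J, hJ, hJS⟩ := exists_indep hSirr
  have hA : IsIrredClosed (kcl (prodPt W y)) := kcl_irred (prime_prodPt hW y)
  have hind : Indep (kcl (prodPt W y)) (Sum.map (fun i : I => (i : ι)) (fun j : J => (j : σ))) := by
    intro p hp
    obtain ⟨s, g, rfl⟩ := exists_decomp p
    set ρ : I ⊕ J → ι ⊕ σ := Sum.map (fun i : I => (i : ι)) (fun j : J => (j : σ)) with hρ
    have h1 := split_relation (kcl_kclosed (prodPt W y)) s (fun i => rename ρ (g i))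
      (fun x hx => by
        have h2 := hp x hx
        rw [aeval_sum_decomp] at h2
        simpa only [aeval_rename] using h2)
    refine Finset.sum_eq_zero fun i hi => ?_
    have h2 := h1 i hi
    rw [vanishing_kcl, mem_vanishingIdeal_iff] at h2
    suffices hg : g i = 0 by rw [hg, map_zero, mul_zero]
    -- a polynomial over `Qb` vanishing on `W × {y}`
    let q : MvPolynomial I (MvPolynomial J Qb) := sumAlgEquiv Qb I J (g i)
    suffices hq : q = 0 by
      exact (map_eq_zero_iff _ (sumAlgEquiv Qb I J).injective).mp hq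
    ext1 α
    rw [coeff_zero]
    -- evaluate at `y`
    let ev : MvPolynomial J Qb →+* ℂ := (aeval (fun j : J => y j) : MvPolynomial J Qb →ₐ[Qb] ℂ)
    have h3 : MvPolynomial.map ev q = 0 := by
      apply hIW
      intro x hx
      have h4 := h2 (Sum.elim x y) ⟨x, hx, rfl⟩
      rw [aeval_rename] at h4
      rw [← h4]
      have h5 : (((aeval (x ∘ fun i : I => (i : ι)) : MvPolynomial I ℂ →ₐ[ℂ] ℂ) :
          MvPolynomial I ℂ →+* ℂ).comp (MvPolynomial.map ev)).comp
          (sumAlgEquiv Qb I J).toRingEquiv.toRingHom =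
          ((aeval (Sum.elim x y ∘ ρ) : MvPolynomial (I ⊕ J) Qb →ₐ[Qb] ℂ) :
            MvPolynomial (I ⊕ J) Qb →+* ℂ) := by
        apply MvPolynomial.ringHom_ext
        · intro r
          simp [ev]
        · rintro (i | j)
          · simp [hρ]
          · simp [hρ, ev]
      exact RingHom.congr_fun h5 (g i)
    have h4 : ev (coeff α q) = 0 := by
      have := congrArg (coeff α) h3
      rwa [coeff_map, coeff_zero] at this
    have h5 : MvPolynomial.map (algebraMap Qb ℂ) (coeff α q) = 0 := by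
      apply hJS
      intro x hx
      rw [aeval_map_Qb, ← aeval_rename]
      have h6 : rename (fun j : J => (j : σ)) (coeff α q) ∈
          (vanishingIdeal Qb (kcl ({y} : Set (σ → ℂ))) : Ideal (MvPolynomial σ Qb)) := by
        rw [vanishing_kcl, mem_vanishingIdeal_iff]
        rintro _ rfl
        rw [aeval_rename]
        exact h4
      exact (mem_vanishingIdeal_iff.mp h6) x hx
    exact (map_eq_zero_iff _ (map_injective _ (algebraMap Qb ℂ).injective)).mp h5
  have h1 := le_dim_of_indep hA hind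
  rw [hI, hJ]
  simpa using h1

end Pool.Agent.Hhelper14.ZPL
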