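import Pool.Agent.Hhelper78.ZPL.WrapC
import Pool.Agent.Hhelper14.ZPL.Proj

/-!
# Noetherian wrap-up: the final equivalences
-/

namespace Pool.Agent.Hhelper14.ZPL

open UpperHalfPlane MvPolynomial Pool.Agent.Hhelper14.ZP MatrixGroups

theorem dimSp : DimSp := by
  intro ι _ r block g s hb hg
  have h := dim_spSet (κ := Fin r) (block := block) (g := g) (s := s) hb hg
  rw [h, Fintype.card_fin]

theorem projSp : ProjSp := by
  intro ι _ r block g s rep hrep hg W hW hsub
  have h : IntOver rep W := (intOver_spSet rep hrep hg).mono hsub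
  exact ⟨h.irredClosed hW, h.dim_eq⟩

/-- `ND → AllFinite` without hypotheses -/
theorem nd_to_allFinite (h : ND) : AllFinite := nd_to_all h dimSp projSp

theorem allFinite_to_q1 (h : AllFinite) : Q1 := all_to_q1 h

theorem nd_iff_q1 : ND ↔ Q1 := ⟨fun h => all_to_q1 (nd_to_allFinite h), q1_to_nd⟩

theorem nd_iff_allFinite : ND ↔ AllFinite :=
  ⟨nd_to_allFinite, fun h => q1_to_nd (all_to_q1 h)⟩

end Pool.Agent.Hhelper14.ZPL
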