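import Pool.Agent.Hhelper78.ZPL.SpreadB
import Pool.Agent.Hhelper78.ZPL.SpK
import Pool.Agent.Hhelper78.ZPL.Wrap

/-!
# Spreading out: generic values, special sets in the product, and the reduction to `Qb`
-/

namespace Pool.Agent.Hhelper14.ZPL

open UpperHalfPlane MvPolynomial Pool.Agent.Hhelper14.ZP

/-- finitely many complex numbers lie in a valuation ring above almost every prime -/
def ExValFinite : Prop := ∀ S : Finset ℂ,
  {p : ℕ | p.Prime ∧ ∀ V : ValuationSubring ℂ,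
    ¬ (V.valuation (p : ℂ) < 1 ∧ ∀ z ∈ S, z ∈ V)}.Finite

/-- nondegeneracy for varieties over the algebraic numbers -/
def NDk : Prop := ∀ (ι : Type) [Fintype ι] (U : Set (ι → ℂ)), KClosed U → IsIrredClosed U →
  (∀ Z, IsSpecial Z → U ⊆ Z → Z = Set.univ) →
  ∃ F : Finset (Set (ι → ℂ)), (∀ E ∈ F, KClosed E ∧ ¬ U ⊆ E) ∧
    ∀ Z W, IsSpecial Z → IsIrredClosed W → W ⊆ U → W ⊆ Z →
      dim Z + dim U < dim W + Fintype.card ι → ∃ E ∈ F, W ⊆ E

variable {ι σ : Type}

theorem inv_prime_notMem {V : ValuationSubring ℂ} {p : ℕ} (hp : p.Prime)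
    (hV : V.valuation (p : ℂ) < 1) : (p : ℂ)⁻¹ ∉ V := by
  rw [← V.valuation_le_one_iff, map_inv₀, not_le]
  have h0 : V.valuation (p : ℂ) ≠ 0 := by
    rw [Valuation.ne_zero_iff]
    exact_mod_cast hp.ne_zero
  exact (one_lt_inv₀ (zero_lt_iff.mpr h0)).mpr hV

theorem inv_prime_mem {V : ValuationSubring ℂ} {p q : ℕ} (hp : p.Prime) (hq : q.Prime)
    (hpq : p ≠ q) (hV : V.valuation (p : ℂ) < 1) : (q : ℂ)⁻¹ ∈ V := by
  have hcop : IsCoprime (p : ℤ) (q : ℤ) := by
    rw [Nat.isCoprime_iff_coprime]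
    exact (Nat.coprime_primes hp hq).mpr hpq
  obtain ⟨u, v, huv⟩ := hcop
  have h1 : (u : ℂ) * p + v * q = 1 := by exact_mod_cast huv
  have h2 : V.valuation ((v : ℂ) * q) = 1 := by
    have h3 : (v : ℂ) * q = 1 - u * p := by rw [← h1]; ring
    rw [h3]
    apply Valuation.map_one_sub_of_lt
    rw [map_mul]
    calc V.valuation (u : ℂ) * V.valuation (p : ℂ) ≤ 1 * V.valuation (p : ℂ) := by
          gcongr
          exact val_int_le V u
      _ < 1 := by rw [one_mul]; exact hV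
  have h4 : (1 : _) ≤ V.valuation (q : ℂ) := by
    calc (1 : _) = V.valuation (v : ℂ) * V.valuation (q : ℂ) := by rw [← map_mul, h2]
      _ ≤ 1 * V.valuation (q : ℂ) := by
          gcongr
          exact val_int_le V v
      _ = V.valuation (q : ℂ) := one_mul _
  rw [← V.valuation_le_one_iff, map_inv₀]
  exact inv_le_one_of_one_le₀ h4

/-- shifting the constants to make them independent -/
theorem exists_shift (hval : ExValFinite) [Fintype ι] [Fintype σ] (x0 : ι → ℂ) (y0 : σ → ℂ) :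
    ∃ p : σ → ℕ, ∀ j, ∃ O : ValuationSubring ℂ, (∀ i, x0 i ∈ O) ∧
      (y0 j + (p j : ℂ)⁻¹ ∉ O) ∧ ∀ l, l ≠ j → y0 l + (p l : ℂ)⁻¹ ∈ O := by
  classical
  let S : Finset ℂ := Finset.univ.image x0 ∪ Finset.univ.image y0
  let G : Set ℕ := {p | p.Prime} \ {p : ℕ | p.Prime ∧ ∀ V : ValuationSubring ℂ,
    ¬ (V.valuation (p : ℂ) < 1 ∧ ∀ z ∈ S, z ∈ V)}
  have hG : G.Infinite := Nat.infinite_setOfPred_prime.sdiff (hval S)
  have : Infinite G := hG.to_subtype
  let φ : σ → G := fun j => Infinite.natEmbedding G (Fintype.equivFin σ j)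
  have hφ : Function.Injective φ := fun a b h =>
    (Fintype.equivFin σ).injective (Fin.ext ((Infinite.natEmbedding G).injective h))
  refine ⟨fun j => (φ j : ℕ), fun j => ?_⟩
  have hprime : ∀ j, Nat.Prime (φ j : ℕ) := fun j => (φ j).2.1
  have hex : ∃ V : ValuationSubring ℂ, V.valuation ((φ j : ℕ) : ℂ) < 1 ∧ ∀ z ∈ S, z ∈ V := by
    by_contra hcon
    push Not at hcon
    refine (φ j).2.2 ⟨hprime j, fun V h => ?_⟩
    obtain ⟨z, hz, hzV⟩ := hcon V h.1
    exact hzV (h.2 z hz)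
  obtain ⟨O, hO, hS⟩ := hex
  have hx : ∀ i, x0 i ∈ O := fun i => hS _ (Finset.mem_union_left _
    (Finset.mem_image_of_mem _ (Finset.mem_univ i)))
  have hy : ∀ l, y0 l ∈ O := fun l => hS _ (Finset.mem_union_right _
    (Finset.mem_image_of_mem _ (Finset.mem_univ l)))
  refine ⟨O, hx, ?_, fun l hl => ?_⟩
  · intro h
    have h1 := sub_mem h (hy j)
    rw [add_sub_cancel_left] at h1
    exact inv_prime_notMem (hprime j) hO h1
  · refine O.add_mem _ _ (hy l) (inv_prime_mem (hprime j) (hprime l) ?_ hO)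
    intro h
    exact hl (hφ (Subtype.ext h)).symm

/-- cylinders over special sets -/
theorem special_cyl [Fintype ι] [Fintype σ] {Z : Set (ι → ℂ)} (hZ : IsSpecial Z) :
    IsSpecial {z : ι ⊕ σ → ℂ | z ∘ Sum.inl ∈ Z} ∧
      dim {z : ι ⊕ σ → ℂ | z ∘ Sum.inl ∈ Z} = dim Z + (Fintype.card σ : ℕ) := by
  classical
  obtain ⟨r, blk, g, s, hb, hg, hs, rfl⟩ := isSpecial_iff.mp hZ
  let blk' : ι ⊕ σ → Option (Fin r ⊕ σ) :=
    Sum.elim (fun i => (blk i).map Sum.inl) (fun j => some (Sum.inr j))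
  let g' : ι ⊕ σ → GL (Fin 2) ℚ := Sum.elim g (fun _ => 1)
  let s' : ι ⊕ σ → ℍ := Sum.elim s (fun _ => UpperHalfPlane.I)
  have hb' : ∀ b, ∃ i, blk' i = some b := by
    rintro (b | j)
    · obtain ⟨i, hi⟩ := hb b
      exact ⟨Sum.inl i, by simp [blk', hi]⟩
    · exact ⟨Sum.inr j, rfl⟩
  have hg' : ∀ i, 0 < (g' i).det.val := by
    rintro (i | j)
    · exact hg i
    · simp [g']
  have hs' : ∀ i, blk' i = none → IsCM (s' i) := by
    rintro (i | j) h
    · exact hs i (by simpa [blk'] using h)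
    · simp [blk'] at h
  have heq : {z : ι ⊕ σ → ℂ | z ∘ Sum.inl ∈ SpSet blk g s} = SpSet blk' g' s' := by
    ext z
    constructor
    · rintro ⟨τ, hτ⟩
      choose t ht using fun j : σ => j_surj (z (Sum.inr j))
      refine ⟨Sum.elim τ t, ?_⟩
      rintro (i | j)
      · have h1 := hτ i
        change z (Sum.inl i) = _ at h1
        rw [h1]
        rcases hi : blk i with _ | b <;> simp [blk', g', s', hi]
      · simp [blk', g', gact_one, ht]
    · rintro ⟨τ, hτ⟩
      refine ⟨fun b => τ (Sum.inl b), fun i => ?_⟩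
      have h1 := hτ (Sum.inl i)
      change z (Sum.inl i) = _
      rw [h1]
      rcases hi : blk i with _ | b <;> simp [blk', g', s', hi]
  refine ⟨?_, ?_⟩
  · obtain ⟨blk'', hb'', hs'', h⟩ := isSpecial_mk hb' hg' hs'
    rw [heq, h]
    exact isSpecial_iff.mpr ⟨_, blk'', g', s', hb'', hg', hs'', rfl⟩
  · rw [heq, dim_spSet hb' hg', dim_spSet hb hg]
    simp

/-- genericity of the spread-out variety -/
theorem generic_prod [Fintype ι] [Fintype σ] {V : Set (ι → ℂ)}
    (hgen : ∀ Z, IsSpecial Z → V ⊆ Z → Z = Set.univ) {x0 : ι → ℂ} (hx0 : x0 ∈ V) {y : σ → ℂ}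
    (hy : ∀ j, ∃ O : ValuationSubring ℂ, (∀ i, x0 i ∈ O) ∧ y j ∉ O ∧ ∀ l, l ≠ j → y l ∈ O)
    {Z : Set (ι ⊕ σ → ℂ)} (hZ : IsSpecial Z) (hVZ : prodPt V y ⊆ Z) : Z = Set.univ := by
  classical
  obtain ⟨r, blk, g, s, hb, hg, hs, rfl⟩ := isSpecial_iff.mp hZ
  obtain ⟨τ0, hτ0⟩ := hVZ ⟨x0, hx0, rfl⟩
  -- no constant coordinates
  have hnc : ∀ p, blk p ≠ none := by
    rintro (i | j) hp
    · have h1 := hgen _ (special_const i (hs _ hp)) (fun x hx => by
        obtain ⟨τ, hτ⟩ := hVZ ⟨x, hx, rfl⟩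
        have h2 := hτ (Sum.inl i)
        rw [hp] at h2
        exact h2)
      have h2 : (fun _ : ι => jInv (s (Sum.inl i)) + 1) ∈
          {x : ι → ℂ | x i = jInv (s (Sum.inl i))} := by rw [h1]; exact Set.mem_univ _
      have h3 : jInv (s (Sum.inl i)) + 1 = jInv (s (Sum.inl i)) := h2
      simp at h3
    · obtain ⟨O, -, hO, -⟩ := hy j
      apply hO
      have h2 := hτ0 (Sum.inr j)
      rw [hp] at h2
      change y j = _ at h2
      rw [h2]
      exact OO_le O (mem_OO_of_CMj ⟨s (Sum.inr j), hs _ hp, rfl⟩)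
  -- no two coordinates in one block
  have hinj : ∀ p q b, blk p = some b → blk q = some b → p = q := by
    have key : ∀ (j : σ) (q : ι ⊕ σ) (b : Fin r), blk (Sum.inr j) = some b → blk q = some b →
        Sum.inr j = q := by
      intro j q b hj hq
      by_contra hne
      obtain ⟨O, hOx, hO, hOy⟩ := hy j
      have h1 := hτ0 (Sum.inr j)
      have h2 := hτ0 q
      rw [hj] at h1
      rw [hq] at h2
      change y j = jInv (gact _ _) at h1
      have h3 : (Sum.elim x0 y : ι ⊕ σ → ℂ) q = jInv (gact (g q) (τ0 b)) := h2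
      rw [h1, gact_mem_iff O (hg _), ← gact_mem_iff O (hg q), ← h3] at hO
      apply hO
      rcases q with i | l
      · exact hOx i
      · exact hOy l fun h => hne (by rw [h])
    rintro (i | j) (i' | j') b hp hq
    · by_contra hne
      have hii : i ≠ i' := fun h => hne (by rw [h])
      refine pair_ne_univ hii (hg (Sum.inl i)) (hg (Sum.inl i')) (hgen _ (special_pair hii
        (hg (Sum.inl i)) (hg (Sum.inl i'))) (fun x hx => ?_))
      obtain ⟨τ, hτ⟩ := hVZ ⟨x, hx, rfl⟩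
      refine ⟨τ b, ?_, ?_⟩
      · have h2 := hτ (Sum.inl i)
        rw [hp] at h2
        exact h2
      · have h2 := hτ (Sum.inl i')
        rw [hq] at h2
        exact h2
    · exact (key j' _ b hq hp).symm
    · exact key j _ b hp hq
    · exact key j _ b hp hq
  rw [Set.eq_univ_iff_forall]
  intro z
  choose t ht using fun p => j_surj (z p)
  choose rep hrep using hb
  refine ⟨fun b => gact (g (rep b))⁻¹ (t (rep b)), fun p => ?_⟩
  obtain ⟨b, hb⟩ := Option.ne_none_iff_exists'.mp (hnc p)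
  have h1 : rep b = p := hinj _ _ b (hrep b) hb
  rw [hb]
  simp only [Option.elim_some]
  rw [h1, ← gact_mul, mul_inv_cancel, gact_one, ht]

end Pool.Agent.Hhelper14.ZPL
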