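import Pool.Agent.Hhelper14.ZPL.Dim
import Pool.Agent.Hhelper14.ZPL.Closed

/-!
# Noetherian wrap-up, first part
-/

namespace Pool.Agent.Hhelper14.ZPL

open UpperHalfPlane MvPolynomial Pool.Agent.Hhelper14.ZP MatrixGroups

/-- non-density of the atypical subvarieties of a Hodge generic irreducible variety -/
def ND : Prop := ∀ (ι : Type) [Fintype ι] (V : Set (ι → ℂ)), IsIrredClosed V →
  (∀ Z, IsSpecial Z → V ⊆ Z → Z = Set.univ) →
  ∃ F : Finset (Set (ι → ℂ)), (∀ E ∈ F, IsZClosed E ∧ ¬ V ⊆ E) ∧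
    ∀ Z W, IsSpecial Z → IsIrredClosed W → W ⊆ V → W ⊆ Z →
      dim Z + dim V < dim W + Fintype.card ι → ∃ E ∈ F, W ⊆ E

/-- every closed set has only finitely many maximal atypical subvarieties -/
def AllFinite : Prop := ∀ (ι : Type) [Fintype ι] (V : Set (ι → ℂ)), IsZClosed V →
  (MaxAtypical V).Finite

/-- Q1 for all `Y(1)^ι` -/
def Q1 : Prop := ∀ (ι : Type) [Fintype ι] (V : Set (ι → ℂ)), IsZClosed V → V ≠ Set.univ →
    ∀ (Z W : ℕ → Set (ι → ℂ)), (∀ k, IsSpecial (Z k) ∧ IsComponent (W k) (V ∩ Z k) ∧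
        dim (Z k) + dim V < dim (W k) + Fintype.card ι) →
      ∃ S : Set (Set (ι → ℂ)), S.Finite ∧ (∀ T ∈ S, IsSpecial T ∧ T ≠ Set.univ) ∧
        ⋃ k, W k ⊆ ⋃₀ S

section basics

variable {ι : Type}

theorem IsIrredClosed.isZClosed {W : Set (ι → ℂ)} (h : IsIrredClosed W) : IsZClosed W := h.2

theorem isZClosed_inter {A B : Set (ι → ℂ)} (hA : IsZClosed A) (hB : IsZClosed B) :
    IsZClosed (A ∩ B) := by
  refine Set.Subset.antisymm ?_ (subset_closure' _)
  intro x hx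
  constructor
  · have h1 : x ∈ zeroLocus ℂ (vanishingIdeal ℂ A : Ideal (MvPolynomial ι ℂ)) :=
      zeroLocus_anti_mono (vanishingIdeal_anti_mono Set.inter_subset_left) hx
    rwa [hA] at h1
  · have h1 : x ∈ zeroLocus ℂ (vanishingIdeal ℂ B : Ideal (MvPolynomial ι ℂ)) :=
      zeroLocus_anti_mono (vanishingIdeal_anti_mono Set.inter_subset_right) hx
    rwa [hB] at h1

theorem subset_of_vanishing_le {A B : Set (ι → ℂ)} (hB : IsZClosed B)
    (h : (vanishingIdeal ℂ B : Ideal (MvPolynomial ι ℂ)) ≤ vanishingIdeal ℂ A) : A ⊆ B := by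
  intro x hx
  rw [← hB]
  exact zeroLocus_anti_mono h (subset_closure' _ hx)

theorem vanishing_univ : (vanishingIdeal ℂ (Set.univ : Set (ι → ℂ)) : Ideal (MvPolynomial ι ℂ)) = ⊥ := by
  rw [eq_bot_iff]
  intro p hp
  rw [Ideal.mem_bot]
  refine MvPolynomial.funext fun x => ?_
  have := (mem_vanishingIdeal_iff.mp hp) x (Set.mem_univ x)
  rw [map_zero]
  simpa [aeval_eq_eval] using this

theorem isZClosed_univ : IsZClosed (Set.univ : Set (ι → ℂ)) :=
  Set.Subset.antisymm (Set.subset_univ _) (subset_closure' _)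

theorem isIrredClosed_univ : IsIrredClosed (Set.univ : Set (ι → ℂ)) := by
  refine ⟨?_, isZClosed_univ⟩
  rw [vanishing_univ]
  exact Ideal.isPrime_bot

theorem dim_univ_nat [Fintype ι] : dim (Set.univ : Set (ι → ℂ)) = (Fintype.card ι : ℕ) := by
  rw [dim, vanishing_univ, ringKrullDim_eq_of_ringEquiv (RingEquiv.quotientBot _),
    MvPolynomial.ringKrullDim_of_isNoetherianRing]
  simp

theorem not_subset_empty {W : Set (ι → ℂ)} (h : IsIrredClosed W) : W.Nonempty := by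
  rw [Set.nonempty_iff_ne_empty]
  rintro rfl
  apply h.1.ne_top
  rw [Ideal.eq_top_iff_one, mem_vanishingIdeal_iff]
  intro x hx
  exact hx.elim

theorem irred_of_subset_union {W : Set (ι → ℂ)} (hW : IsIrredClosed W)
    (F : Finset (Set (ι → ℂ))) (hF : ∀ E ∈ F, IsZClosed E) (h : ∀ x ∈ W, ∃ E ∈ F, x ∈ E) :
    ∃ E ∈ F, W ⊆ E := by
  classical
  by_contra hcon
  push Not at hcon
  have h1 : ∀ E ∈ F, ∃ p : MvPolynomial ι ℂ, p ∈ (vanishingIdeal ℂ E : Ideal (MvPolynomial ι ℂ)) ∧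
      p ∉ (vanishingIdeal ℂ W : Ideal (MvPolynomial ι ℂ)) := by
    intro E hE
    by_contra hc
    push Not at hc
    exact hcon E hE (subset_of_vanishing_le (hF E hE) hc)
  choose! p hp1 hp2 using h1
  have hprime := hW.1
  have h2 : ∏ E ∈ F, p E ∈ (vanishingIdeal ℂ W : Ideal (MvPolynomial ι ℂ)) := by
    rw [mem_vanishingIdeal_iff]
    intro x hx
    obtain ⟨E, hE, hxE⟩ := h x hx
    rw [map_prod]
    exact Finset.prod_eq_zero hE ((mem_vanishingIdeal_iff.mp (hp1 E hE)) x hxE)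
  obtain ⟨E, hE, hpE⟩ := (Ideal.IsPrime.prod_mem_iff).mp h2
  exact hp2 E hE hpE

theorem exists_minimal_closed [Finite ι] (P : Set (ι → ℂ) → Prop)
    (hne : ∃ X, IsZClosed X ∧ P X) :
    ∃ Y, IsZClosed Y ∧ P Y ∧ ∀ X, IsZClosed X → P X → X ⊆ Y → X = Y := by
  let S : Set (Ideal (MvPolynomial ι ℂ)) := {I | ∃ X, IsZClosed X ∧ P X ∧ vanishingIdeal ℂ X = I}
  have hS : S.Nonempty := by
    obtain ⟨X, hX, hPX⟩ := hne
    exact ⟨_, X, hX, hPX, rfl⟩
  obtain ⟨I, ⟨Y, hY, hPY, rfl⟩, hmax⟩ := WellFounded.has_min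
    (wellFounded_gt (α := Ideal (MvPolynomial ι ℂ))) S hS
  refine ⟨Y, hY, hPY, fun X hX hPX hXY => ?_⟩
  refine Set.Subset.antisymm hXY (subset_of_vanishing_le hX ?_)
  have h1 : (vanishingIdeal ℂ Y : Ideal (MvPolynomial ι ℂ)) ≤ vanishingIdeal ℂ X :=
    vanishingIdeal_anti_mono hXY
  have h2 := hmax (vanishingIdeal ℂ X) ⟨X, hX, hPX, rfl⟩
  exact (not_lt_iff_le_imp_ge.mp h2) h1

theorem components_finite [Fintype ι] {X : Set (ι → ℂ)} (hX : IsZClosed X) :
    {C | IsComponent C X}.Finite := by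
  obtain ⟨F, hF, hcov⟩ := exists_components hX
  refine (Finset.finite_toSet F).subset ?_
  intro C hC
  obtain ⟨D, hD, hCD⟩ := hcov C hC.1 hC.2.1
  have := hC.2.2 D (hF D hD).1 (hF D hD).2.1 hCD
  rw [← this]
  exact hD

theorem exists_component_ge [Fintype ι] {X W : Set (ι → ℂ)} (hX : IsZClosed X)
    (hW : IsIrredClosed W) (hWX : W ⊆ X) : ∃ C, IsComponent C X ∧ W ⊆ C := by
  obtain ⟨F, hF, hcov⟩ := exists_components hX
  obtain ⟨D, hD, hWD⟩ := hcov W hW hWX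
  exact ⟨D, hF D hD, hWD⟩

theorem exists_max_atypical [Fintype ι] {V : Set (ι → ℂ)} :
    ∀ (k : ℕ) (C : Set (ι → ℂ)), IsAtypical V C → ((Fintype.card ι : ℕ) : WithBot ℕ∞) ≤ dim C + k →
      ∃ C' ∈ MaxAtypical V, C ⊆ C' := by
  intro k
  induction k with
  | zero =>
    intro C hC hk
    refine ⟨C, ⟨hC, fun C' hC' hCC' => ?_⟩, subset_rfl⟩
    obtain ⟨Z, -, hcomp, -⟩ := hC
    obtain ⟨Z', -, hcomp', -⟩ := hC'
    refine (eq_of_dim_le hcomp.1 hcomp'.1 hCC' ?_).symm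
    obtain ⟨d', hd', hd'n⟩ := exists_dim hcomp'.1
    rw [hd']
    rw [Nat.cast_zero, add_zero] at hk
    exact le_trans (by exact_mod_cast hd'n) hk
  | succ k ih =>
    intro C hC hk
    by_cases hmax : ∀ C', IsAtypical V C' → C ⊆ C' → C' = C
    · exact ⟨C, ⟨hC, hmax⟩, subset_rfl⟩
    · push Not at hmax
      obtain ⟨C', hC', hCC', hne⟩ := hmax
      have hirr : IsIrredClosed C := by
        obtain ⟨Z, -, hcomp, -⟩ := hC
        exact hcomp.1
      have hirr' : IsIrredClosed C' := by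
        obtain ⟨Z', -, hcomp', -⟩ := hC'
        exact hcomp'.1
      have hlt := dim_lt hirr hirr' (hCC'.ssubset_of_ne (Ne.symm hne))
      obtain ⟨d, hd, -⟩ := exists_dim hirr
      obtain ⟨d', hd', -⟩ := exists_dim hirr'
      rw [hd, hd'] at hlt
      have hlt' : d < d' := by exact_mod_cast hlt
      have hk' : Fintype.card ι ≤ d + (k + 1) := by
        rw [hd] at hk
        exact_mod_cast hk
      obtain ⟨C'', hC'', hsub⟩ := ih C' hC' (by
        rw [hd']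
        have : Fintype.card ι ≤ d' + k := by omega
        exact_mod_cast this)
      exact ⟨C'', hC'', hCC'.trans hsub⟩

theorem exists_max_atypical' [Fintype ι] {V : Set (ι → ℂ)} {C : Set (ι → ℂ)}
    (hC : IsAtypical V C) : ∃ C' ∈ MaxAtypical V, C ⊆ C' := by
  refine exists_max_atypical (Fintype.card ι) C hC ?_
  obtain ⟨Z, -, hcomp, -⟩ := hC
  obtain ⟨d, hd, -⟩ := exists_dim hcomp.1
  rw [hd]
  have : Fintype.card ι ≤ d + Fintype.card ι := by omega
  exact_mod_cast this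

end basics

theorem all_to_q1 (h : AllFinite) : Q1 := by
  classical
  intro ι _ V hV hVne Z W hZW
  have hfin := h ι V hV
  have hex : ∀ C ∈ MaxAtypical V, ∃ T, IsSpecial T ∧ T ≠ Set.univ ∧ C ⊆ T := by
    rintro C ⟨⟨T, hT, hcomp, hdim⟩, -⟩
    refine ⟨T, hT, ?_, fun x hx => (hcomp.2.1 hx).2⟩
    rintro rfl
    rw [dim_univ_nat] at hdim
    have h1 : dim C ≤ dim V := dim_mono fun x hx => (hcomp.2.1 hx).1
    refine absurd hdim (not_lt.mpr ?_)
    rw [add_comm]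
    gcongr
  choose! T hT1 hT2 hT3 using hex
  refine ⟨T '' MaxAtypical V, hfin.image T, ?_, ?_⟩
  · rintro _ ⟨C, hC, rfl⟩
    exact ⟨hT1 C hC, hT2 C hC⟩
  · intro x hx
    obtain ⟨k, hk⟩ := Set.mem_iUnion.mp hx
    obtain ⟨h1, h2, h3⟩ := hZW k
    obtain ⟨C', hC', hsub⟩ := exists_max_atypical' (V := V) (C := W k) ⟨Z k, h1, h2, h3⟩
    exact ⟨T C', ⟨C', hC', rfl⟩, hT3 C' hC' (hsub hk)⟩

end Pool.Agent.Hhelper14.ZPL
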