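import Pool.Agent.Hhelper78.ZPL.WrapA

/-!
# Noetherian wrap-up, second part: `Q1 → ND`
-/

namespace Pool.Agent.Hhelper14.ZPL

open UpperHalfPlane MvPolynomial Pool.Agent.Hhelper14.ZP MatrixGroups

/-- the CM points are countable -/
theorem countable_isCM : {τ : ℍ | IsCM τ}.Countable := by
  let f : ℤ × ℤ × ℤ → Polynomial ℂ := fun p =>
    Polynomial.C (p.1 : ℂ) * Polynomial.X ^ 2 + Polynomial.C (p.2.1 : ℂ) * Polynomial.X +
      Polynomial.C (p.2.2 : ℂ)
  have h1 : (⋃ p : ℤ × ℤ × ℤ, {τ : ℍ | f p ≠ 0 ∧ (f p).IsRoot (τ : ℂ)}).Countable := by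
    refine Set.countable_iUnion fun p => ?_
    by_cases hp : f p = 0
    · simp [hp]
    · refine (Set.Finite.countable ?_)
      have h2 : {z : ℂ | (f p).IsRoot z}.Finite := Polynomial.finite_setOfPred_isRoot hp
      exact (h2.preimage (f := fun τ : ℍ => (τ : ℂ))
        (fun x _ y _ h => UpperHalfPlane.ext h)).subset fun τ hτ => hτ.2
  refine h1.mono ?_
  rintro τ ⟨a, b, c, ha, habc⟩
  rw [Set.mem_iUnion]
  refine ⟨(a, b, c), ?_, ?_⟩
  · intro h0
    have h2 := congrArg (fun q => q.coeff 2) h0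
    simp only [f, Polynomial.coeff_add, Polynomial.coeff_C_mul, Polynomial.coeff_X_pow,
      Polynomial.coeff_X, Polynomial.coeff_C, Polynomial.coeff_zero] at h2
    norm_num at h2
    exact ha h2
  · simp only [f, Polynomial.IsRoot, Polynomial.eval_add, Polynomial.eval_mul, Polynomial.eval_C,
      Polynomial.eval_pow, Polynomial.eval_X]
    exact habc

instance countable_mat : Countable (Matrix (Fin 2) (Fin 2) ℚ) := by
  unfold Matrix
  infer_instance

instance countable_GL : Countable (GL (Fin 2) ℚ) := by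
  refine Function.Injective.countable (f := fun g : GL (Fin 2) ℚ => g.val) ?_
  intro g h hgh
  exact Units.ext hgh

/-- there are only countably many special subvarieties -/
theorem countable_special (ι : Type) [Finite ι] : {Z : Set (ι → ℂ) | IsSpecial Z}.Countable := by
  classical
  have hc : Countable {τ : ℍ // IsCM τ} := countable_isCM.to_subtype
  let D : Type := Σ r : ℕ, (ι → Option (Fin r)) × (ι → GL (Fin 2) ℚ) × (ι → {τ : ℍ // IsCM τ})
  have hD : Countable D := by
    have : ∀ r : ℕ, Countable ((ι → Option (Fin r)) × (ι → GL (Fin 2) ℚ) ×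
        (ι → {τ : ℍ // IsCM τ})) := fun r => inferInstance
    infer_instance
  let F : D → Set (ι → ℂ) := fun d => SpSet d.2.1 d.2.2.1 (fun i => (d.2.2.2 i : ℍ))
  refine (Set.countable_range F).mono ?_
  intro Z hZ
  obtain ⟨r, block, g, s, -, -, hs, rfl⟩ := isSpecial_iff.mp hZ
  refine ⟨⟨r, block, g, fun i => if h : block i = none then ⟨s i, hs i h⟩ else
    ⟨imPt 0, isCM_imPt 0⟩⟩, ?_⟩
  ext x
  constructor
  · rintro ⟨τ, hτ⟩
    refine ⟨τ, fun i => ?_⟩
    rw [hτ i]
    rcases h : block i with _ | b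
    · simp [h]
    · simp [h]
  · rintro ⟨τ, hτ⟩
    refine ⟨τ, fun i => ?_⟩
    rw [hτ i]
    rcases h : block i with _ | b
    · simp [h]
    · simp [h]

theorem q1_to_nd (h : Q1) : ND := by
  classical
  intro ι _ V hV hgen
  by_cases hVu : V = Set.univ
  · refine ⟨∅, by simp, ?_⟩
    intro Z W hZ hW hWV hWZ hdim
    exfalso
    rw [hVu, dim_univ_nat] at hdim
    refine absurd hdim (not_lt.mpr ?_)
    have := dim_mono hWZ
    gcongr
  · let A : Set (Set (ι → ℂ) × Set (ι → ℂ)) := {p | IsSpecial p.1 ∧ IsComponent p.2 (V ∩ p.1) ∧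
      dim p.1 + dim V < dim p.2 + Fintype.card ι}
    have hA : A.Countable := by
      have h1 : (⋃ Z ∈ {Z : Set (ι → ℂ) | IsSpecial Z},
          ({Z} : Set (Set (ι → ℂ))) ×ˢ {C | IsComponent C (V ∩ Z)}).Countable := by
        refine (countable_special ι).biUnion fun Z hZ => ?_
        exact (Set.countable_singleton Z).prod
          (components_finite (isZClosed_inter hV.isZClosed (special_closed hZ))).countable
      refine h1.mono ?_
      rintro ⟨Z, C⟩ ⟨hZ, hC, -⟩
      simp only [Set.mem_iUnion]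
      exact ⟨Z, hZ, rfl, hC⟩
    rcases Set.eq_empty_or_nonempty A with hAe | hAne
    · refine ⟨∅, by simp, ?_⟩
      intro Z W hZ hW hWV hWZ hdim
      exfalso
      obtain ⟨C, hC, hWC⟩ := exists_component_ge
        (isZClosed_inter hV.isZClosed (special_closed hZ)) hW (Set.subset_inter hWV hWZ)
      have : (Z, C) ∈ A := ⟨hZ, hC, hdim.trans_le (by have := dim_mono hWC; gcongr)⟩
      rw [hAe] at this
      exact this
    · obtain ⟨f, hf⟩ := hA.exists_eq_range hAne
      have hfA : ∀ k, f k ∈ A := fun k => by rw [hf]; exact ⟨k, rfl⟩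
      obtain ⟨S, hSfin, hS, hcov⟩ := h ι V hV.isZClosed hVu (fun k => (f k).1) (fun k => (f k).2)
        (fun k => hfA k)
      refine ⟨hSfin.toFinset, ?_, ?_⟩
      · intro E hE
        have hES := hS E (hSfin.mem_toFinset.mp hE)
        exact ⟨special_closed hES.1, fun hVE => hES.2 (hgen E hES.1 hVE)⟩
      · intro Z W hZ hW hWV hWZ hdim
        obtain ⟨C, hC, hWC⟩ := exists_component_ge
          (isZClosed_inter hV.isZClosed (special_closed hZ)) hW (Set.subset_inter hWV hWZ)
        have hCA : (Z, C) ∈ A := ⟨hZ, hC, hdim.trans_le (by have := dim_mono hWC; gcongr)⟩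
        rw [hf] at hCA
        obtain ⟨k, hk⟩ := hCA
        have hCirr : IsIrredClosed C := hC.1
        obtain ⟨E, hE, hCE⟩ := irred_of_subset_union hCirr hSfin.toFinset
          (fun E hE => special_closed (hS E (hSfin.mem_toFinset.mp hE)).1) (by
            intro x hx
            have h1 : x ∈ ⋃ k, (f k).2 := Set.mem_iUnion.mpr ⟨k, by rw [hk]; exact hx⟩
            obtain ⟨E, hE, hxE⟩ := hcov h1
            exact ⟨E, hSfin.mem_toFinset.mpr hE, hxE⟩)
        exact ⟨E, hE, hWC.trans hCE⟩

end Pool.Agent.Hhelper14.ZPL
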