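import Pool.Agent.Hhelper78.ZPL.WrapB

/-!
# Noetherian wrap-up, third part: `ND → AllFinite`
-/

namespace Pool.Agent.Hhelper14.ZPL

open UpperHalfPlane MvPolynomial Pool.Agent.Hhelper14.ZP MatrixGroups

/-- the dimension of a special set is the number of its blocks -/
def DimSp : Prop := ∀ (ι : Type) [Fintype ι] (r : ℕ) (block : ι → Option (Fin r))
  (g : ι → GL (Fin 2) ℚ) (s : ι → ℍ), (∀ b, ∃ i, block i = some b) → (∀ i, 0 < (g i).det.val) →
  dim (SpSet block g s) = (r : ℕ)

/-- projecting a subvariety of a special set to representatives of the blocks -/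
def ProjSp : Prop := ∀ (ι : Type) [Fintype ι] (r : ℕ) (block : ι → Option (Fin r))
  (g : ι → GL (Fin 2) ℚ) (s : ι → ℍ) (rep : Fin r → ι), (∀ b, block (rep b) = some b) →
  (∀ i, 0 < (g i).det.val) → ∀ W : Set (ι → ℂ), IsIrredClosed W → W ⊆ SpSet block g s →
  IsIrredClosed ((fun x : ι → ℂ => x ∘ rep) '' W) ∧
    dim ((fun x : ι → ℂ => x ∘ rep) '' W) = dim W

/-- an integral matrix acts like a rational one -/
theorem exists_gl {N : ℕ} (hN : 0 < N) (A : DD N) :
    ∃ g : GL (Fin 2) ℚ, 0 < g.det.val ∧ ∀ τ : ℍ, gact g τ = act hN A τ := by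
  have hdet : (A.1.map (Int.cast : ℤ → ℚ)).det = (N : ℚ) := by
    have h := A.2
    have h2 := congrArg (fun x : ℤ => (x : ℚ)) h
    simp only [Int.cast_natCast] at h2
    rw [← h2]
    exact (Int.castRingHom ℚ).map_det A.1 |>.symm
  let g : GL (Fin 2) ℚ := Matrix.GeneralLinearGroup.mkOfDetNeZero (A.1.map (Int.cast : ℤ → ℚ)) (by
    rw [hdet]; exact_mod_cast hN.ne')
  have hg : 0 < g.det.val := by
    have : g.det.val = (A.1.map (Int.cast : ℤ → ℚ)).det := rfl
    rw [this, hdet]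
    exact_mod_cast hN
  refine ⟨g, hg, fun τ => ?_⟩
  apply UpperHalfPlane.ext
  rw [coe_gact hg, coe_act]
  have he : ∀ i j, (g.1 i j : ℚ) = (A.1 i j : ℚ) := fun i j => rfl
  simp only [he]
  push_cast
  rfl

/-- Hecke translates of CM points are CM -/
theorem isCM_gact {g : GL (Fin 2) ℚ} (hg : 0 < g.det.val) {τ : ℍ} (h : IsCM τ) :
    IsCM (gact g τ) := by
  obtain ⟨N, hN, A, hA⟩ := exists_integral hg
  obtain ⟨a0, b0, c0, ha0, h0⟩ := h
  have hτ : (τ : ℂ).im ≠ 0 := ne_of_gt τ.im_pos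
  have hD : b0 ^ 2 - 4 * a0 * c0 < 0 := by
    have h1 : (2 * (a0 : ℂ) * (τ : ℂ) + b0) ^ 2 = (((b0 ^ 2 - 4 * a0 * c0 : ℤ) : ℝ) : ℂ) := by
      push_cast
      linear_combination 4 * (a0 : ℂ) * h0
    have hw : (2 * (a0 : ℂ) * (τ : ℂ) + b0).im ≠ 0 := by
      have : (2 * (a0 : ℂ) * (τ : ℂ) + b0).im = 2 * a0 * (τ : ℂ).im := by
        simp [Complex.mul_im]
      rw [this]
      have h5 : (a0 : ℝ) ≠ 0 := by exact_mod_cast ha0
      exact mul_ne_zero (mul_ne_zero two_ne_zero h5) hτ
    set w := (2 * (a0 : ℂ) * (τ : ℂ) + b0) with hwdef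
    have him := congrArg Complex.im h1
    have hre := congrArg Complex.re h1
    rw [Complex.ofReal_im, pow_two, Complex.mul_im] at him
    rw [Complex.ofReal_re, pow_two, Complex.mul_re] at hre
    have hwre : w.re = 0 := by
      have h2 : w.re * w.im = 0 := by linarith
      rcases mul_eq_zero.mp h2 with h3 | h3
      · exact h3
      · exact absurd h3 hw
    rw [hwre, zero_mul, zero_sub] at hre
    have h3 : 0 < w.im * w.im := mul_self_pos.mpr hw
    have h4 : ((b0 ^ 2 - 4 * a0 * c0 : ℤ) : ℝ) < 0 := by linarith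
    exact_mod_cast h4
  have hdet : A.1 0 0 * A.1 1 1 - A.1 0 1 * A.1 1 0 = (N : ℤ) := by
    have := A.2
    rwa [Matrix.det_fin_two] at this
  have hden : ((A.1 1 0 : ℂ) * τ + A.1 1 1) ≠ 0 := by
    intro h1
    have h2 := congrArg Complex.im h1
    simp [Complex.mul_im] at h2
    rcases h2 with h2 | h2
    · rw [h2] at h1 hdet
      simp only [Int.cast_zero, zero_mul, zero_add] at h1
      have h3 : A.1 1 1 = 0 := by exact_mod_cast h1
      rw [h3] at hdet
      simp at hdet
      omega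
    · exact hτ h2
  have hτ' : (gact g τ : ℂ) * ((A.1 1 0 : ℂ) * τ + A.1 1 1) = A.1 0 0 * τ + A.1 0 1 := by
    rw [hA, coe_act, div_mul_cancel₀ _ hden]
  set a := A.1 0 0
  set b := A.1 0 1
  set c := A.1 1 0
  set d := A.1 1 1
  set z := (gact g τ : ℂ)
  refine ⟨a0 * d ^ 2 - b0 * d * c + c0 * c ^ 2, -2 * a0 * d * b + b0 * (d * a + b * c) -
    2 * c0 * a * c, a0 * b ^ 2 - b0 * a * b + c0 * a ^ 2, ?_, ?_⟩
  · intro h1
    have h2 : (2 * a0 * d - b0 * c) ^ 2 = (b0 ^ 2 - 4 * a0 * c0) * c ^ 2 := by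
      linear_combination 4 * a0 * h1
    have h3 : c = 0 := by
      by_contra hc
      have : 0 < c ^ 2 := by positivity
      nlinarith [sq_nonneg (2 * a0 * d - b0 * c)]
    rw [h3] at h2
    have h4 : d = 0 := by
      have h5 : (2 * a0 * d) ^ 2 = 0 := by linear_combination h2
      have h6 : 2 * a0 * d = 0 := by
        exact pow_eq_zero_iff (two_ne_zero) |>.mp h5
      rcases mul_eq_zero.mp h6 with h7 | h7
      · omega
      · exact h7
    rw [h3, h4] at hdet
    simp at hdet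
    omega
  · push_cast
    have h1 : (τ : ℂ) * (a - c * z) = d * z - b := by linear_combination -hτ'
    have h2 : (a0 : ℂ) * (d * z - b) ^ 2 + b0 * (d * z - b) * (a - c * z) +
        c0 * (a - c * z) ^ 2 = 0 := by
      rw [← h1]
      linear_combination (a - c * z) ^ 2 * h0
    linear_combination h2

/-- Hecke translates of points with the same `j` -/
theorem root_mem {N : ℕ} (hN : 0 < N) (A : DD N) {t u : ℍ} (h : jInv t = jInv u) :
    ∃ q : QQ N, jA hN A t = jQ hN q u := by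
  have := finite_QQ hN
  have : Fintype (QQ N) := Fintype.ofFinite _
  have h1 : (charP hN).map (evalAt N t) = (charP hN).map (evalAt N u) := by
    ext k
    rw [Polynomial.coeff_map, Polynomial.coeff_map]
    obtain ⟨P, hP⟩ := charP_coeff hN k
    rw [hP, hP, h]
  rw [charP_map, charP_map] at h1
  have h2 := congrArg (Polynomial.eval (jA hN A t)) h1
  rw [Polynomial.eval_prod, Polynomial.eval_prod, Finset.prod_eq_zero
    (Finset.mem_univ (Quotient.mk'' A : QQ N)) (by
      rw [Polynomial.eval_sub, Polynomial.eval_X, Polynomial.eval_C, jQ_mk, sub_self])] at h2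
  obtain ⟨q, -, hq⟩ := Finset.prod_eq_zero_iff.mp h2.symm
  rw [Polynomial.eval_sub, Polynomial.eval_X, Polynomial.eval_C, sub_eq_zero] at hq
  exact ⟨q, hq⟩

section ranks

variable {ι : Type}

/-- `Y` is contained in a special set with `r` blocks -/
def HasRank (Y : Set (ι → ℂ)) (r : ℕ) : Prop :=
  ∃ (block : ι → Option (Fin r)) (g : ι → GL (Fin 2) ℚ) (s : ι → ℍ),
    (∀ b : Fin r, ∃ i, block i = some b) ∧ (∀ i, 0 < (g i).det.val) ∧
    (∀ i, block i = none → IsCM (s i)) ∧ Y ⊆ SpSet block g s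

theorem rank_le_card [Fintype ι] {r : ℕ} {block : ι → Option (Fin r)}
    (hb : ∀ b : Fin r, ∃ i, block i = some b) : r ≤ Fintype.card ι := by
  choose rep hrep using hb
  have hinj : Function.Injective rep := by
    intro a b hab
    have h1 := hrep a
    rw [hab, hrep b] at h1
    exact (Option.some.inj h1).symm
  simpa using Fintype.card_le_of_injective rep hinj

theorem spSet_eq_univ [Fintype ι] {r : ℕ} {block : ι → Option (Fin r)}
    {g : ι → GL (Fin 2) ℚ} {s : ι → ℍ}
    (hb : ∀ b : Fin r, ∃ i, block i = some b) (hr : r = Fintype.card ι) :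
    SpSet block g s = Set.univ := by
  choose rep hrep using hb
  have hinj : Function.Injective rep := by
    intro a b hab
    have h1 := hrep a
    rw [hab, hrep b] at h1
    exact (Option.some.inj h1).symm
  have hbij : Function.Bijective rep := by
    rw [Fintype.bijective_iff_injective_and_card]
    exact ⟨hinj, by simpa using hr⟩
  rw [Set.eq_univ_iff_forall]
  intro x
  choose t ht using fun i => j_surj (x i)
  refine ⟨fun b => gact (g (rep b))⁻¹ (t (rep b)), fun i => ?_⟩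
  obtain ⟨b, rfl⟩ := hbij.2 i
  rw [hrep b]
  simp only [Option.elim_some]
  rw [← gact_mul, mul_inv_cancel, gact_one, ht]

theorem exists_hasRank [Fintype ι] (Y : Set (ι → ℂ)) : ∃ r, HasRank Y r := by
  refine ⟨Fintype.card ι, fun i => some (Fintype.equivFin ι i), fun _ => 1, fun _ => imPt 0,
    fun b => ⟨(Fintype.equivFin ι).symm b, by simp⟩, fun _ => by simp, fun i hi => by simp at hi,
    ?_⟩
  rw [spSet_eq_univ (fun b => ⟨(Fintype.equivFin ι).symm b, by simp⟩) rfl]
  exact Set.subset_univ _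

theorem isZClosed_preimage {κ : Type} (rep : κ → ι) {E : Set (κ → ℂ)} (hE : IsZClosed E) :
    IsZClosed ((fun x : ι → ℂ => x ∘ rep) ⁻¹' E) := by
  refine Set.Subset.antisymm ?_ (subset_closure' _)
  intro x hx
  rw [Set.mem_preimage, ← hE, mem_zeroLocus_iff]
  intro p hp
  rw [mem_zeroLocus_iff] at hx
  have h1 := hx (rename rep p) (by
    rw [mem_vanishingIdeal_iff]
    intro y hy
    rw [aeval_rename]
    exact (mem_vanishingIdeal_iff.mp hp) _ hy)
  rwa [aeval_rename] at h1

end ranks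

/-- the key descent: if the projection of `Y` lies in a special set of rank `rb`, so does `Y` -/
theorem hasRank_of_proj {ι : Type} [Fintype ι] {Y : Set (ι → ℂ)} (hY : IsIrredClosed Y) {r : ℕ}
    {block : ι → Option (Fin r)} {g : ι → GL (Fin 2) ℚ} {s : ι → ℍ} {rep : Fin r → ι}
    (hrep : ∀ b, block (rep b) = some b) (hg : ∀ i, 0 < (g i).det.val)
    (hs : ∀ i, block i = none → IsCM (s i)) (hYS : Y ⊆ SpSet block g s) {rb : ℕ}
    (hb : HasRank ((fun x : ι → ℂ => x ∘ rep) '' Y) rb) : HasRank Y rb := by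
  classical
  obtain ⟨bb, h, s1, hbb, hh, hs1, hYb⟩ := hb
  have hex : ∀ i, ∃ (N : ℕ) (hN : 0 < N) (A : DD N), ∀ b, block i = some b → ∀ τ : ℍ,
      gact (g i * (g (rep b))⁻¹) τ = act hN A τ := by
    intro i
    rcases hbi : block i with _ | b
    · exact ⟨1, one_pos, ⟨1, by simp⟩, fun b hb => by simp at hb⟩
    · obtain ⟨N, hN, A, hA⟩ := exists_integral (g := g i * (g (rep b))⁻¹) (by
        rw [map_mul, Units.val_mul]
        exact mul_pos (hg _) (det_inv_pos (hg _)))
      refine ⟨N, hN, A, fun b' hb' => ?_⟩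
      rw [← Option.some.inj hb']
      exact hA
  choose N hN A hA using hex
  have hB : ∀ i (q : QQ (N i)), ∃ B : GL (Fin 2) ℚ, 0 < B.det.val ∧
      ∀ u : ℍ, jQ (hN i) q u = jInv (gact B u) := by
    intro i q
    induction q using Quotient.inductionOn' with
    | h A =>
      obtain ⟨B, hB1, hB2⟩ := exists_gl (hN i) A
      exact ⟨B, hB1, fun u => by rw [jQ_mk, jA, hB2]⟩
  choose B hB1 hB2 using hB
  have hfin : ∀ i, Finite (QQ (N i)) := fun i => finite_QQ (hN i)
  have hfinQ : Finite (∀ i, QQ (N i)) := Pi.finite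
  have hfintype : Fintype (∀ i, QQ (N i)) := Fintype.ofFinite _
  let block' : ι → Option (Fin rb) := fun i => (block i).bind bb
  let g' : (∀ i, QQ (N i)) → ι → GL (Fin 2) ℚ := fun q i =>
    (block i).elim 1 (fun b => B i (q i) * h b)
  let s' : (∀ i, QQ (N i)) → ι → ℍ := fun q i =>
    (block i).elim (s i) (fun b => gact (B i (q i)) (s1 b))
  have hblock' : ∀ β : Fin rb, ∃ i, block' i = some β := by
    intro β
    obtain ⟨b, hb⟩ := hbb β
    exact ⟨rep b, by simp only [block', hrep b, Option.bind_some, hb]⟩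
  have hg' : ∀ q i, 0 < (g' q i).det.val := by
    intro q i
    simp only [g']
    rcases hbi : block i with _ | b
    · simp
    · simp only [Option.elim_some]
      rw [map_mul, Units.val_mul]
      exact mul_pos (hB1 _ _) (hh _)
  have hs' : ∀ q i, block' i = none → IsCM (s' q i) := by
    intro q i hi
    simp only [block'] at hi
    simp only [s']
    rcases hbi : block i with _ | b
    · simp only [Option.elim_none]
      exact hs i hbi
    · simp only [Option.elim_some]
      rw [hbi, Option.bind_some] at hi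
      exact isCM_gact (hB1 _ _) (hs1 b hi)
  obtain ⟨E, hE, hYE⟩ := irred_of_subset_union hY
    (Finset.univ.image fun q : (∀ i, QQ (N i)) => SpSet block' (g' q) (s' q)) (by
      intro E hE
      obtain ⟨q, -, rfl⟩ := Finset.mem_image.mp hE
      exact spSet_closed hblock' (hg' q)) (by
      intro x hx
      obtain ⟨τ, hτ⟩ := hYS hx
      obtain ⟨σ, hσ⟩ := hYb ⟨x, hx, rfl⟩
      have hq : ∀ i, ∃ q : QQ (N i), ∀ b, block i = some b → x i = (bb b).elim
          (jInv (gact (B i q) (s1 b))) (fun β => jInv (gact (B i q * h b) (σ β))) := by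
        intro i
        rcases hbi : block i with _ | b
        · exact ⟨Quotient.mk'' (A i), fun b hb => by simp at hb⟩
        · have hxi := hτ i
          rw [hbi] at hxi
          simp only [Option.elim_some] at hxi
          have hxr := hτ (rep b)
          rw [hrep b] at hxr
          simp only [Option.elim_some] at hxr
          have hxr2 := hσ b
          simp only [Function.comp_apply] at hxr2
          obtain ⟨u, hu⟩ : ∃ u : ℍ, u = (bb b).elim (s1 b) (fun β => gact (h b) (σ β)) := ⟨_, rfl⟩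
          have hju : jInv (gact (g (rep b)) (τ b)) = jInv u := by
            rw [← hxr, hxr2, hu]
            rcases bb b with _ | β <;> rfl
          obtain ⟨q, hq⟩ := root_mem (hN i) (A i) hju
          refine ⟨q, fun b' hb' => ?_⟩
          rw [← Option.some.inj hb']
          have h1 : x i = jInv (gact (B i q) u) := by
            rw [← hB2, ← hq, jA, ← hA i b hbi, ← gact_mul, inv_mul_cancel_right, hxi]
          rw [h1, hu]
          rcases bb b with _ | β
          · rfl
          · simp only [Option.elim_some]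
            rw [gact_mul]
      choose q hq using hq
      refine ⟨_, Finset.mem_image.mpr ⟨q, Finset.mem_univ _, rfl⟩, σ, fun i => ?_⟩
      simp only [block', g', s']
      rcases hbi : block i with _ | b
      · have := hτ i
        rw [hbi] at this
        simpa using this
      · have := hq i b hbi
        rw [this]
        simp only [Option.bind_some, Option.elim_some])
  obtain ⟨q, -, rfl⟩ := Finset.mem_image.mp hE
  exact ⟨block', g' q, s' q, hblock', hg' q, hs' q, hYE⟩

theorem hasRank_le {ι : Type} [Fintype ι] {Y : Set (ι → ℂ)} {Z : Set (ι → ℂ)} (hZ : IsSpecial Z)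
    (h : Y ⊆ Z) (hZu : Z ≠ Set.univ) : ∃ r, r < Fintype.card ι ∧ HasRank Y r := by
  obtain ⟨r, block, g, s, hb, hg, hs, rfl⟩ := isSpecial_iff.mp hZ
  refine ⟨r, lt_of_le_of_ne (rank_le_card hb) fun hr => hZu (spSet_eq_univ hb hr),
    block, g, s, hb, hg, hs, h⟩

/-- projection of a special set -/
theorem proj_special {ι : Type} [Fintype ι] {r : ℕ} (rep : Fin r → ι) {Z : Set (ι → ℂ)}
    (hDim : DimSp) (hZ : IsSpecial Z) :
    ∃ Z' : Set (Fin r → ℂ), IsSpecial Z' ∧ (∀ x ∈ Z, x ∘ rep ∈ Z') ∧ dim Z' ≤ dim Z := by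
  classical
  obtain ⟨rZ, bZ, gZ, sZ, hbZ, hgZ, hsZ, rfl⟩ := isSpecial_iff.mp hZ
  let κ : Type := {β : Fin rZ // ∃ b : Fin r, bZ (rep b) = some β}
  let bl : Fin r → Option κ := fun b => (bZ (rep b)).attach.map (fun β => ⟨β.1, b, β.2⟩)
  have hbl1 : ∀ b, bZ (rep b) = none → bl b = none := by
    intro b hb
    simp only [bl]
    rw [Option.map_eq_none_iff, Option.attach_eq_none_iff]
    exact hb
  have hbl2 : ∀ b β (hb : bZ (rep b) = some β), bl b = some ⟨β, b, hb⟩ := by
    intro b β hb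
    simp only [bl]
    rw [Option.map_eq_some_iff]
    exact ⟨⟨β, hb⟩, by simpa using hb, rfl⟩
  have hb1 : ∀ β : κ, ∃ b, bl b = some β := by
    rintro ⟨β, b, hb⟩
    exact ⟨b, hbl2 b β hb⟩
  have hg1 : ∀ b, 0 < (gZ (rep b)).det.val := fun b => hgZ _
  have hs1 : ∀ b, bl b = none → IsCM (sZ (rep b)) := by
    intro b hb
    rcases hbi : bZ (rep b) with _ | β
    · exact hsZ _ hbi
    · rw [hbl2 b β hbi] at hb
      simp at hb
  obtain ⟨block', hb', hs', heq⟩ := isSpecial_mk (g := fun b => gZ (rep b))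
    (s := fun b => sZ (rep b)) hb1 hg1 hs1
  refine ⟨SpSet bl (fun b => gZ (rep b)) (fun b => sZ (rep b)), ?_, ?_, ?_⟩
  · rw [heq]
    exact isSpecial_iff.mpr ⟨_, block', _, _, hb', hg1, hs', rfl⟩
  · rintro x ⟨τ, hτ⟩
    refine ⟨fun β => τ β.1, fun b => ?_⟩
    have h1 := hτ (rep b)
    rcases hbi : bZ (rep b) with _ | β
    · rw [hbl1 b hbi]
      rw [hbi] at h1
      exact h1
    · rw [hbl2 b β hbi]
      rw [hbi] at h1
      exact h1
  · rw [heq, hDim _ _ _ _ _ hb' hg1, hDim _ _ _ _ _ hbZ hgZ]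
    have : Fintype.card κ ≤ rZ := by
      have := Fintype.card_subtype_le (fun β : Fin rZ => ∃ b : Fin r, bZ (rep b) = some β)
      simpa using this
    exact_mod_cast this

/-- the relative version of `ND` -/
theorem step1 (hND : ND) (hDim : DimSp) (hProj : ProjSp) {ι : Type} [Fintype ι]
    {Y : Set (ι → ℂ)} (hY : IsIrredClosed Y) :
    ∃ (S : Set (ι → ℂ)) (r : ℕ), IsSpecial S ∧ Y ⊆ S ∧ dim S = (r : ℕ) ∧
      ∃ F : Finset (Set (ι → ℂ)), (∀ E ∈ F, IsZClosed E ∧ ¬ Y ⊆ E) ∧
        ∀ Z W, IsSpecial Z → IsIrredClosed W → W ⊆ Y → W ⊆ Z →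
          dim Z + dim Y < dim W + r → ∃ E ∈ F, W ⊆ E := by
  classical
  have hex := exists_hasRank Y
  set r := Nat.find hex with hr
  obtain ⟨block, g, s, hb, hg, hs, hYS⟩ := Nat.find_spec hex
  choose rep hrep using hb
  have hmin : ∀ m, HasRank Y m → r ≤ m := fun m hm => Nat.find_min' hex hm
  let ρ : (ι → ℂ) → (Fin r → ℂ) := fun x => x ∘ rep
  obtain ⟨hYb, hYbd⟩ := hProj ι r block g s rep hrep hg Y hY hYS
  obtain ⟨Fb, hFb1, hFb2⟩ := hND (Fin r) (ρ '' Y) hYb (by
    intro Zb hZb hsub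
    by_contra hne
    obtain ⟨rb, hrb, hrank⟩ := hasRank_le hZb hsub hne
    rw [Fintype.card_fin] at hrb
    have h1 := hasRank_of_proj hY hrep hg hs hYS hrank
    exact absurd (hmin rb h1) (not_le.mpr hrb))
  refine ⟨SpSet block g s, r, isSpecial_iff.mpr ⟨r, block, g, s, fun b => ⟨rep b, hrep b⟩, hg, hs,
    rfl⟩, hYS, hDim _ _ _ _ _ (fun b => ⟨rep b, hrep b⟩) hg,
    Fb.image fun E => ρ ⁻¹' E, ?_, ?_⟩
  · intro E hE
    obtain ⟨Eb, hEb, rfl⟩ := Finset.mem_image.mp hE
    refine ⟨isZClosed_preimage rep (hFb1 Eb hEb).1, fun hsub => (hFb1 Eb hEb).2 ?_⟩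
    rintro _ ⟨x, hx, rfl⟩
    exact hsub hx
  · intro Z W hZ hW hWY hWZ hdim
    obtain ⟨Z', hZ', hZZ', hdZ⟩ := proj_special rep hDim hZ
    obtain ⟨hWb, hWbd⟩ := hProj ι r block g s rep hrep hg W hW (hWY.trans hYS)
    obtain ⟨E, hE, hWE⟩ := hFb2 Z' (ρ '' W) hZ' hWb (Set.image_mono hWY) (by
      rintro _ ⟨x, hx, rfl⟩
      exact hZZ' x (hWZ hx)) (by
      have e1 : dim (ρ '' Y) = dim Y := hYbd
      have e2 : dim (ρ '' W) = dim W := hWbd
      rw [e1, e2, Fintype.card_fin]
      refine lt_of_le_of_lt ?_ hdim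
      gcongr)
    refine ⟨_, Finset.mem_image.mpr ⟨E, hE, rfl⟩, ?_⟩
    intro x hx
    exact hWE ⟨x, hx, rfl⟩

theorem exists_nat_of_between {a : WithBot ℕ∞} {m n : ℕ} (h1 : (m : WithBot ℕ∞) ≤ a)
    (h2 : a ≤ (n : WithBot ℕ∞)) : ∃ k : ℕ, a = (k : ℕ) := by
  have hne : a ≠ ⊥ := by
    rintro rfl
    exact absurd h1 (by simp)
  obtain ⟨b, rfl⟩ := WithBot.ne_bot_iff_exists.mp hne
  have h3 : b ≤ (n : ℕ∞) := by exact_mod_cast h2
  have hbtop : b ≠ ⊤ := by
    rintro rfl
    simp at h3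
  obtain ⟨d, rfl⟩ := ENat.ne_top_iff_exists.mp hbtop
  exact ⟨d, rfl⟩

/-- a finite cover of an infinite set -/
theorem exists_infinite_piece {α β : Type*} {A : Set α} (hA : A.Infinite) (F : Finset β)
    (R : α → β → Prop) (h : ∀ a ∈ A, ∃ b ∈ F, R a b) : ∃ b ∈ F, {a ∈ A | R a b}.Infinite := by
  by_contra hcon
  push Not at hcon
  apply hA
  have h1 : (⋃ b ∈ (F : Set β), {a ∈ A | R a b}).Finite :=
    (Finset.finite_toSet F).biUnion fun b hb => hcon b hb
  refine h1.subset fun a ha => ?_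
  obtain ⟨b, hb, hab⟩ := h a ha
  simp only [Set.mem_iUnion]
  exact ⟨b, hb, ha, hab⟩

theorem nd_to_all (hND : ND) (hDim : DimSp) (hProj : ProjSp) : AllFinite := by
  classical
  intro ι _ V hV
  by_contra hinf
  have hinf' : (MaxAtypical V).Infinite := hinf
  have hirrM : ∀ C ∈ MaxAtypical V, IsIrredClosed C := by
    rintro C ⟨⟨Z, -, hcomp, -⟩, -⟩
    exact hcomp.1
  obtain ⟨Y, hYc, ⟨hYV, hYinf⟩, hYmin⟩ := exists_minimal_closed
    (fun X => X ⊆ V ∧ {C ∈ MaxAtypical V | C ⊆ X}.Infinite) ⟨V, hV, subset_rfl, by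
      refine hinf'.mono ?_
      rintro C hC
      refine ⟨hC, ?_⟩
      obtain ⟨⟨Z, -, hcomp, -⟩, -⟩ := hC
      exact fun x hx => (hcomp.2.1 hx).1⟩
  -- `Y` is irreducible
  have hYirr : IsIrredClosed Y := by
    obtain ⟨F, hF, hcov⟩ := exists_components hYc
    obtain ⟨D, hD, hDinf⟩ := exists_infinite_piece hYinf F (fun C D => C ⊆ D) (by
      rintro C ⟨hC, hCY⟩
      exact hcov C (hirrM C hC) hCY)
    have hDY := (hF D hD).2.1
    have h1 := hYmin D (hF D hD).1.isZClosed ⟨hDY.trans hYV, hDinf.mono (by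
      rintro C ⟨⟨hC, -⟩, hCD⟩
      exact ⟨hC, hCD⟩)⟩ hDY
    rw [← h1]
    exact (hF D hD).1
  obtain ⟨S, r, hS, hYS, hSr, F, hF1, hF2⟩ := step1 hND hDim hProj hYirr
  obtain ⟨d, hd, hdn⟩ := exists_dim hYirr
  obtain ⟨v, hv⟩ : ∃ v : ℕ, dim V = (v : ℕ) := by
    refine exists_nat_of_between (m := d) (n := Fintype.card ι) ?_ ?_
    · rw [← hd]; exact dim_mono hYV
    · rw [← dim_univ_nat]; exact dim_mono (Set.subset_univ V)
  by_cases hcase : r + v < d + Fintype.card ι
  · -- `Y` lies in an atypical component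
    obtain ⟨C, hC, hYC⟩ := exists_component_ge (isZClosed_inter hV (special_closed hS)) hYirr
      (Set.subset_inter hYV hYS)
    have hatyp : IsAtypical V C := by
      refine ⟨S, hS, hC, ?_⟩
      obtain ⟨c, hc, -⟩ := exists_dim hC.1
      have h1 := dim_mono hYC
      rw [hd, hc] at h1
      have h1' : d ≤ c := by exact_mod_cast h1
      rw [hSr, hv, hc]
      have : r + v < c + Fintype.card ι := by omega
      exact_mod_cast this
    apply hYinf
    refine (Set.finite_singleton C).subset ?_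
    rintro C' ⟨hC', hC'Y⟩
    exact (hC'.2 C hatyp (hC'Y.trans hYC)).symm
  · obtain ⟨E, hE, hEinf⟩ := exists_infinite_piece hYinf F (fun C E => C ⊆ E) (by
      rintro C ⟨hC, hCY⟩
      obtain ⟨⟨Z, hZ, hcomp, hdim⟩, -⟩ := hC
      refine hF2 Z C hZ hcomp.1 hCY (fun x hx => (hcomp.2.1 hx).2) ?_
      obtain ⟨c, hc, -⟩ := exists_dim hcomp.1
      obtain ⟨z, hz⟩ : ∃ z : ℕ, dim Z = (z : ℕ) := by
        obtain ⟨z, bZ, gZ, sZ, hbZ, hgZ, -, rfl⟩ := isSpecial_iff.mp hZ
        exact ⟨z, hDim _ _ _ _ _ hbZ hgZ⟩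
      rw [hz, hv, hc] at hdim
      rw [hz, hd, hc]
      have h1 : z + v < c + Fintype.card ι := by exact_mod_cast hdim
      have h2 : z + d < c + r := by omega
      exact_mod_cast h2)
    have h1 := hYmin (Y ∩ E) (isZClosed_inter hYc (hF1 E hE).1)
      ⟨Set.inter_subset_left.trans hYV, hEinf.mono (by
        rintro C ⟨⟨hC, hCY⟩, hCE⟩
        exact ⟨hC, Set.subset_inter hCY hCE⟩)⟩ Set.inter_subset_left
    exact (hF1 E hE).2 (by rw [← h1]; exact Set.inter_subset_right)

end Pool.Agent.Hhelper14.ZPL
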